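import Mathlib
import Pool.Agent.Helper89.KN.Defs

set_option autoImplicit false

namespace Pool.KN

open Finset

/-- Helly argument: if each of the finitely many convex sets `B k` misses at most `μ` pairs, and all sets
`B k`, `k ∈ K`, avoid the chosen label of each of more than `3 μ` pairs, then these sets have a common point
(they contain the partner labels of all but at most `μ` of the chosen pairs). -/
theorem helly_partner {M : ℕ} (lab : Fin M × Bool → ℝ × ℝ) (I : Finset (Fin M)) (b : Fin M → Bool)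
    (μ : ℕ) (hI : 3 * μ < I.card) {κ : Type} [Finite κ] (B : κ → Set (ℝ × ℝ))
    (hconv : ∀ k, Convex ℝ (B k)) (hmiss : ∀ k, Nat.card {t : Fin M // Misses lab (B k) t} ≤ μ) :
    ∃ p : ℝ × ℝ, ∀ k, (∀ i ∈ I, lab (i, b i) ∉ B k) → p ∈ B k := by
  classical
  have := Fintype.ofFinite κ
  set K : Finset κ := Finset.univ.filter (fun k => ∀ i ∈ I, lab (i, b i) ∉ B k) with hK
  have key : (⋂ k ∈ K, B k).Nonempty := by
    apply Convex.helly_theorem' (𝕜 := ℝ)
    · intro k _; exact hconv k
    · intro J hJK hJ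
      have hfr : Module.finrank ℝ (ℝ × ℝ) = 2 := by simp
      rw [hfr] at hJ
      -- bad pairs of `k`
      let bad : κ → Finset (Fin M) := fun k => I.filter (fun i => lab (i, !(b i)) ∉ B k)
      have hbad : ∀ k ∈ K, (bad k).card ≤ μ := by
        intro k hk
        have hk' : ∀ i ∈ I, lab (i, b i) ∉ B k := (Finset.mem_filter.mp hk).2
        refine le_trans ?_ (hmiss k)
        rw [Nat.card_eq_fintype_card, Fintype.card_subtype]
        apply Finset.card_le_card
        intro i hi
        have hi' := Finset.mem_filter.mp hi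
        refine Finset.mem_filter.mpr ⟨Finset.mem_univ _, ?_⟩
        have h1 := hk' i hi'.1
        have h2 := hi'.2
        unfold Misses
        cases hb : b i
        · rw [hb] at h1 h2; exact ⟨h1, h2⟩
        · rw [hb] at h1 h2; exact ⟨h2, h1⟩
      have hU : (J.biUnion bad).card ≤ 3 * μ := by
        calc (J.biUnion bad).card ≤ ∑ k ∈ J, (bad k).card := Finset.card_biUnion_le
          _ ≤ ∑ _k ∈ J, μ := Finset.sum_le_sum (fun k hk => hbad k (hJK hk))
          _ = J.card * μ := by rw [Finset.sum_const, smul_eq_mul]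
          _ ≤ 3 * μ := Nat.mul_le_mul_right _ hJ
      obtain ⟨i, hiI, hiU⟩ : ∃ i ∈ I, i ∉ J.biUnion bad := by
        by_contra hcon
        push Not at hcon
        have : I.card ≤ (J.biUnion bad).card := Finset.card_le_card (fun i hi => hcon i hi)
        omega
      refine ⟨lab (i, !(b i)), ?_⟩
      simp only [Set.mem_iInter]
      intro k hk
      by_contra hcon
      exact hiU (Finset.mem_biUnion.mpr ⟨k, hk, Finset.mem_filter.mpr ⟨hiI, hcon⟩⟩)
  obtain ⟨p, hp⟩ := key
  refine ⟨p, fun k hk => ?_⟩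
  simp only [Set.mem_iInter] at hp
  exact hp k (Finset.mem_filter.mpr ⟨Finset.mem_univ _, hk⟩)

/-- coordinates of a functional -/
theorem functional_apply (f : StrongDual ℝ (ℝ × ℝ)) (z : ℝ × ℝ) :
    f z = f (1, 0) * z.1 + f (0, 1) * z.2 := by
  have h : z = z.1 • ((1 : ℝ), (0 : ℝ)) + z.2 • ((0 : ℝ), (1 : ℝ)) := by
    ext <;> simp
  conv_lhs => rw [h]
  rw [map_add, map_smul, map_smul, smul_eq_mul, smul_eq_mul]
  ring

/-- barycentric identity -/
theorem bary (f : StrongDual ℝ (ℝ × ℝ)) (x y p c : ℝ × ℝ) :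
    br y p c * (f x - f c) + br p x c * (f y - f c) + br x y c * (f p - f c) = 0 := by
  rw [functional_apply f x, functional_apply f y, functional_apply f p, functional_apply f c]
  unfold br
  ring

theorem sep_tri (f : StrongDual ℝ (ℝ × ℝ)) (x y p c : ℝ × ℝ)
    (h : (0 < br x y c ∧ 0 < br y p c ∧ 0 < br p x c) ∨ (br x y c < 0 ∧ br y p c < 0 ∧ br p x c < 0))
    (hx : f x < f c) (hy : f y < f c) : f c < f p := by
  have hb := bary f x y p c
  rcases h with ⟨h1, h2, h3⟩ | ⟨h1, h2, h3⟩
  · by_contra hcon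
    push Not at hcon
    have t1 : br y p c * (f x - f c) < 0 := mul_neg_of_pos_of_neg h2 (by linarith)
    have t2 : br p x c * (f y - f c) < 0 := mul_neg_of_pos_of_neg h3 (by linarith)
    have t3 : br x y c * (f p - f c) ≤ 0 := mul_nonpos_of_nonneg_of_nonpos h1.le (by linarith)
    linarith
  · by_contra hcon
    push Not at hcon
    have t1 : 0 < br y p c * (f x - f c) := mul_pos_of_neg_of_neg h2 (by linarith)
    have t2 : 0 < br p x c * (f y - f c) := mul_pos_of_neg_of_neg h3 (by linarith)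
    have t3 : 0 ≤ br x y c * (f p - f c) := mul_nonneg_of_nonpos_of_nonpos h1.le (by linarith)
    linarith

/-- (KN7) three points from groups -/
theorem pierce_of_groups {M : ℕ} (lab : Fin M × Bool → ℝ × ℝ) (c : ℝ × ℝ) (bx by' : Bool)
    (E F S : Finset (Fin M)) (μ : ℕ)
    (hcert : ∀ e ∈ E, ∀ f ∈ F, ∀ s ∈ S,
      Cert c (lab (e, bx)) (lab (f, by')) (lab (s, false)) (lab (s, true)))
    (hS : μ < S.card) (hE : 3 * μ < E.card) (hF : 3 * μ < F.card)
    {κ : Type} [Finite κ] (B : κ → Set (ℝ × ℝ)) (hconv : ∀ k, Convex ℝ (B k))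
    (hopen : ∀ k, IsOpen (B k)) (hmiss : ∀ k, Nat.card {t : Fin M // Misses lab (B k) t} ≤ μ) :
    ∃ x y z : ℝ × ℝ, ∀ k, x ∈ B k ∨ y ∈ B k ∨ z ∈ B k := by
  classical
  obtain ⟨p, hp⟩ := helly_partner lab E (fun _ => bx) μ hE B hconv hmiss
  obtain ⟨q, hq⟩ := helly_partner lab F (fun _ => by') μ hF B hconv hmiss
  refine ⟨c, p, q, fun k => ?_⟩
  by_cases hc : c ∈ B k
  · exact Or.inl hc
  right
  obtain ⟨f, hf⟩ := geometric_hahn_banach_open_point (hconv k) (hopen k) hc
  by_cases h1 : ∀ e ∈ E, f c ≤ f (lab (e, bx))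
  · left
    apply hp
    intro e he hmem
    exact absurd (hf _ hmem) (not_lt.mpr (h1 e he))
  by_cases h2 : ∀ e ∈ F, f c ≤ f (lab (e, by'))
  · right
    apply hq
    intro e he hmem
    exact absurd (hf _ hmem) (not_lt.mpr (h2 e he))
  exfalso
  push Not at h1 h2
  obtain ⟨e, he, hfe⟩ := h1
  obtain ⟨g, hg, hfg⟩ := h2
  have hall : ∀ s ∈ S, Misses lab (B k) s := by
    intro s hs
    have hc' := hcert e he g hg s hs
    have hp' : f c < f (lab (s, false)) := by
      apply sep_tri f (lab (e, bx)) (lab (g, by')) _ c _ hfe hfg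
      rcases hc' with ⟨a1, a2, a3, a4, a5⟩ | ⟨a1, a2, a3, a4, a5⟩
      · exact Or.inl ⟨a1, a2, a3⟩
      · exact Or.inr ⟨a1, a2, a3⟩
    have hq' : f c < f (lab (s, true)) := by
      apply sep_tri f (lab (e, bx)) (lab (g, by')) _ c _ hfe hfg
      rcases hc' with ⟨a1, a2, a3, a4, a5⟩ | ⟨a1, a2, a3, a4, a5⟩
      · exact Or.inl ⟨a1, a4, a5⟩
      · exact Or.inr ⟨a1, a4, a5⟩
    exact ⟨fun hm => absurd (hf _ hm) (not_lt.mpr hp'.le), fun hm => absurd (hf _ hm) (not_lt.mpr hq'.le)⟩
  have : S.card ≤ μ := by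
    refine le_trans ?_ (hmiss k)
    rw [Nat.card_eq_fintype_card, Fintype.card_subtype]
    apply Finset.card_le_card
    intro s hs
    exact Finset.mem_filter.mpr ⟨Finset.mem_univ _, hall s hs⟩
  omega

/-- order statistics: a median-type threshold -/
theorem exists_threshold {α : Type*} (Λ : Finset α) (x : α → ℝ) (m : ℕ) (hm : 0 < m)
    (hΛ : 2 * m ≤ Λ.card) :
    ∃ t : ℝ, m ≤ (Λ.filter (fun z => x z ≤ t)).card ∧ m ≤ (Λ.filter (fun z => t ≤ x z)).card := by
  classical
  set Q : Finset α := Λ.filter (fun z => m ≤ (Λ.filter (fun z' => x z' ≤ x z)).card) with hQ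
  have hne : Λ.Nonempty := by
    rw [← Finset.card_pos]; omega
  obtain ⟨z1, hz1, hmax⟩ := Finset.exists_max_image Λ x hne
  have hQne : Q.Nonempty := by
    refine ⟨z1, Finset.mem_filter.mpr ⟨hz1, ?_⟩⟩
    rw [Finset.filter_true_of_mem (fun z hz => hmax z hz)]
    omega
  obtain ⟨z0, hz0, hmin⟩ := Finset.exists_min_image Q x hQne
  have hz0' := Finset.mem_filter.mp hz0
  refine ⟨x z0, hz0'.2, ?_⟩
  have hlt : (Λ.filter (fun z => x z < x z0)).card < m := by
    by_contra hcon
    push Not at hcon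
    have hne' : (Λ.filter (fun z => x z < x z0)).Nonempty := by
      rw [← Finset.card_pos]; omega
    obtain ⟨z2, hz2, hmax2⟩ := Finset.exists_max_image _ x hne'
    have hz2' := Finset.mem_filter.mp hz2
    have hz2Q : z2 ∈ Q := by
      refine Finset.mem_filter.mpr ⟨hz2'.1, le_trans hcon (Finset.card_le_card ?_)⟩
      intro z hz
      exact Finset.mem_filter.mpr ⟨(Finset.mem_filter.mp hz).1, hmax2 z hz⟩
    have := hmin z2 hz2Q
    linarith [hz2'.2]
  have hsplit := Finset.card_filter_add_card_filter_not (s := Λ) (fun z => x z < x z0)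
  have heq : Λ.filter (fun z => ¬ x z < x z0) = Λ.filter (fun z => x z0 ≤ x z) := by
    apply Finset.filter_congr
    intro z _
    exact not_lt
  rw [heq] at hsplit
  omega

/-- from two groups to the extremal slope -/
theorem slope_of_groups {α : Type*} (Λ : Finset α) (x w : α → ℝ) (hw : ∀ z ∈ Λ, 0 < w z)
    (m : ℕ) (hm : 0 < m) (Z1 Z2 : Finset α) (h1 : Z1 ⊆ Λ) (h2 : Z2 ⊆ Λ) (c1 : m ≤ Z1.card)
    (c2 : m ≤ Z2.card) :
    ∃ z1 ∈ Z1, ∃ z2 ∈ Z2, ∃ t : ℝ,
      m ≤ (Λ.filter (fun z => x z + (x z2 - x z1) / (w z1 + w z2) * w z ≤ t)).card ∧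
      m ≤ (Λ.filter (fun z => t ≤ x z - (x z2 - x z1) / (w z1 + w z2) * w z)).card := by
  classical
  have hne1 : Z1.Nonempty := by rw [← Finset.card_pos]; omega
  have hne2 : Z2.Nonempty := by rw [← Finset.card_pos]; omega
  obtain ⟨⟨z1, z2⟩, hz, hmin⟩ := Finset.exists_min_image (Z1 ×ˢ Z2)
    (fun q => (x q.2 - x q.1) / (w q.1 + w q.2)) (hne1.product hne2)
  have hz' := Finset.mem_product.mp hz
  refine ⟨z1, hz'.1, z2, hz'.2, ?_⟩
  simp only at hmin
  set s := (x z2 - x z1) / (w z1 + w z2) with hs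
  obtain ⟨z0, hz0, hmax⟩ := Finset.exists_max_image Z1 (fun z => x z + s * w z) hne1
  refine ⟨x z0 + s * w z0, le_trans c1 (Finset.card_le_card ?_), le_trans c2 (Finset.card_le_card ?_)⟩
  · intro z hz
    exact Finset.mem_filter.mpr ⟨h1 hz, hmax z hz⟩
  · intro z hz
    refine Finset.mem_filter.mpr ⟨h2 hz, ?_⟩
    have := hmin (z0, z) (Finset.mem_product.mpr ⟨hz0, hz⟩)
    simp only at this
    have hpos : 0 < w z0 + w z := add_pos (hw _ (h1 hz0)) (hw _ (h2 hz))
    rw [le_div_iff₀ hpos] at this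
    linarith

/-- optimal double cone -/
theorem exists_cone {α : Type*} (Λ : Finset α) (x w : α → ℝ) (hw : ∀ z ∈ Λ, 0 < w z)
    (m : ℕ) (hm : 0 < m) (hΛ : 2 * m ≤ Λ.card) :
    ∃ s t : ℝ, 0 ≤ s ∧ m ≤ (Λ.filter (fun z => x z + s * w z ≤ t)).card ∧
      m ≤ (Λ.filter (fun z => t ≤ x z - s * w z)).card ∧
      (Λ.filter (fun z => x z + s * w z < t)).card < m ∧
      (Λ.filter (fun z => t < x z - s * w z)).card < m := by
  classical
  set P : ℝ → Prop := fun s => 0 ≤ s ∧ ∃ t : ℝ, m ≤ (Λ.filter (fun z => x z + s * w z ≤ t)).card ∧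
      m ≤ (Λ.filter (fun z => t ≤ x z - s * w z)).card with hP
  set R : Finset ℝ := ((Λ ×ˢ Λ).image (fun q => (x q.2 - x q.1) / (w q.1 + w q.2))).filter P with hR
  -- the raising step
  have raise : ∀ (Z1 Z2 : Finset α) (s : ℝ), 0 ≤ s → Z1 ⊆ Λ → Z2 ⊆ Λ → m ≤ Z1.card → m ≤ Z2.card →
      (∀ z1 ∈ Z1, ∀ z2 ∈ Z2, x z1 + s * w z1 ≤ x z2 - s * w z2) → ∃ s' ∈ R, s ≤ s' ∧
        ((∀ z1 ∈ Z1, ∀ z2 ∈ Z2, x z1 + s * w z1 < x z2 - s * w z2) → s < s') := by
    intro Z1 Z2 s hs h1 h2 c1 c2 hle
    obtain ⟨z1, hz1, z2, hz2, t, ht1, ht2⟩ := slope_of_groups Λ x w hw m hm Z1 Z2 h1 h2 c1 c2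
    have hpos : 0 < w z1 + w z2 := add_pos (hw _ (h1 hz1)) (hw _ (h2 hz2))
    have hle' : s ≤ (x z2 - x z1) / (w z1 + w z2) := by
      rw [le_div_iff₀ hpos]
      have := hle z1 hz1 z2 hz2
      linarith
    refine ⟨(x z2 - x z1) / (w z1 + w z2), ?_, hle', ?_⟩
    · refine Finset.mem_filter.mpr ⟨Finset.mem_image.mpr ⟨(z1, z2),
        Finset.mem_product.mpr ⟨h1 hz1, h2 hz2⟩, rfl⟩, le_trans hs hle', t, ht1, ht2⟩
    · intro hlt
      rw [lt_div_iff₀ hpos]
      have := hlt z1 hz1 z2 hz2
      linarith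
  have hRne : R.Nonempty := by
    obtain ⟨t, ht1, ht2⟩ := exists_threshold Λ x m hm hΛ
    obtain ⟨s', hs', _⟩ := raise _ _ 0 le_rfl (Finset.filter_subset _ _) (Finset.filter_subset _ _) ht1 ht2
      (by
        intro z1 hz1 z2 hz2
        have a1 := (Finset.mem_filter.mp hz1).2
        have a2 := (Finset.mem_filter.mp hz2).2
        linarith)
    exact ⟨s', hs'⟩
  obtain ⟨s, hsR, hmax⟩ := Finset.exists_max_image R id hRne
  simp only [id] at hmax
  obtain ⟨hs0, t, ht1, ht2⟩ := (Finset.mem_filter.mp hsR).2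
  refine ⟨s, t, hs0, ht1, ht2, ?_, ?_⟩
  · by_contra hcon
    push Not at hcon
    obtain ⟨s', hs', hle, hlt⟩ := raise _ _ s hs0 (Finset.filter_subset _ _) (Finset.filter_subset _ _)
      hcon ht2 (by
        intro z1 hz1 z2 hz2
        have a1 := (Finset.mem_filter.mp hz1).2
        have a2 := (Finset.mem_filter.mp hz2).2
        linarith)
    have h1 := hlt (by
        intro z1 hz1 z2 hz2
        have a1 := (Finset.mem_filter.mp hz1).2
        have a2 := (Finset.mem_filter.mp hz2).2
        linarith)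
    linarith [hmax s' hs']
  · by_contra hcon
    push Not at hcon
    obtain ⟨s', hs', hle, hlt⟩ := raise _ _ s hs0 (Finset.filter_subset _ _) (Finset.filter_subset _ _)
      ht1 hcon (by
        intro z1 hz1 z2 hz2
        have a1 := (Finset.mem_filter.mp hz1).2
        have a2 := (Finset.mem_filter.mp hz2).2
        linarith)
    have h1 := hlt (by
        intro z1 hz1 z2 hz2
        have a1 := (Finset.mem_filter.mp hz1).2
        have a2 := (Finset.mem_filter.mp hz2).2
        linarith)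
    linarith [hmax s' hs']

/-- many labels give many pairs -/
theorem card_le_two_mul_image_fst {M : ℕ} (C : Finset (Fin M × Bool)) :
    C.card ≤ 2 * (C.image Prod.fst).card := by
  classical
  have : C ⊆ (C.image Prod.fst) ×ˢ (Finset.univ : Finset Bool) := by
    intro z hz
    exact Finset.mem_product.mpr ⟨Finset.mem_image_of_mem _ hz, Finset.mem_univ _⟩
  have h := Finset.card_le_card this
  rw [Finset.card_product] at h
  simp only [Finset.card_univ, Fintype.card_bool] at h
  omega

/-- Helly argument for a large set of labels. -/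
theorem helly_labels {M : ℕ} (lab : Fin M × Bool → ℝ × ℝ) (C : Finset (Fin M × Bool))
    (μ : ℕ) (hC : 6 * μ < C.card) {κ : Type} [Finite κ] (B : κ → Set (ℝ × ℝ))
    (hconv : ∀ k, Convex ℝ (B k)) (hmiss : ∀ k, Nat.card {t : Fin M // Misses lab (B k) t} ≤ μ) :
    ∃ p : ℝ × ℝ, ∀ k, (∀ z ∈ C, lab z ∉ B k) → p ∈ B k := by
  classical
  have hI : 3 * μ < (C.image Prod.fst).card := by
    have := card_le_two_mul_image_fst C
    omega
  have hex : ∀ i : Fin M, ∃ b : Bool, i ∈ C.image Prod.fst → (i, b) ∈ C := by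
    intro i
    by_cases hi : i ∈ C.image Prod.fst
    · obtain ⟨⟨j, b⟩, hz, hj⟩ := Finset.mem_image.mp hi
      simp only at hj
      subst hj
      exact ⟨b, fun _ => hz⟩
    · exact ⟨true, fun h => absurd h hi⟩
  choose b hb using hex
  obtain ⟨p, hp⟩ := helly_partner lab (C.image Prod.fst) b μ hI B hconv hmiss
  refine ⟨p, fun k hk => hp k (fun i hi => hk _ (hb i hi))⟩

/-- (KN6) three points from a line with many full pairs on both sides -/
theorem pierce_of_line {M : ℕ} (lab : Fin M × Bool → ℝ × ℝ) (a b : ℝ × ℝ)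
    (U D : Finset (Fin M)) (μ m : ℕ)
    (hU : ∀ i ∈ U, ∀ t, 0 < br a b (lab (i, t))) (hD : ∀ i ∈ D, ∀ t, br a b (lab (i, t)) < 0)
    (hm : 6 * μ < m) (hUc : 2 * m + μ < U.card) (hDc : 2 * m + μ < D.card)
    {κ : Type} [Finite κ] (B : κ → Set (ℝ × ℝ)) (hconv : ∀ k, Convex ℝ (B k))
    (hopen : ∀ k, IsOpen (B k)) (hmiss : ∀ k, Nat.card {t : Fin M // Misses lab (B k) t} ≤ μ) :
    ∃ x y z : ℝ × ℝ, ∀ k, x ∈ B k ∨ y ∈ B k ∨ z ∈ B k := by
  classical
  set d1 := b.1 - a.1 with hd1
  set d2 := b.2 - a.2 with hd2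
  set D2 := d1 ^ 2 + d2 ^ 2 with hD2
  have hD2pos : 0 < D2 := by
    have hUne : U.Nonempty := by rw [← Finset.card_pos]; omega
    obtain ⟨i, hi⟩ := hUne
    have h := hU i hi true
    unfold br at h
    rw [← hd1, ← hd2] at h
    by_contra hcon
    push Not at hcon
    have e1 : d1 = 0 := by nlinarith [sq_nonneg d1, sq_nonneg d2]
    have e2 : d2 = 0 := by nlinarith [sq_nonneg d1, sq_nonneg d2]
    rw [e1, e2] at h
    linarith
  set x : Fin M × Bool → ℝ := fun z => d1 * ((lab z).1 - a.1) + d2 * ((lab z).2 - a.2) with hx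
  set y : Fin M × Bool → ℝ := fun z => br a b (lab z) with hy
  set Λ : Finset (Fin M × Bool) := (U ∪ D) ×ˢ Finset.univ with hΛ
  have hw : ∀ z ∈ Λ, 0 < |y z| := by
    rintro ⟨i, t⟩ hz
    have hz' := (Finset.mem_product.mp hz).1
    rcases Finset.mem_union.mp hz' with h | h
    · exact abs_pos.mpr (hU i h t).ne'
    · exact abs_pos.mpr (hD i h t).ne
  have hcard : 2 * m ≤ Λ.card := by
    rw [hΛ, Finset.card_product]
    have : U.card ≤ (U ∪ D).card := Finset.card_le_card Finset.subset_union_left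
    simp only [Finset.card_univ, Fintype.card_bool]
    omega
  obtain ⟨s, t, hs0, hc1, hc2, hl1, hl2⟩ := exists_cone Λ x (fun z => |y z|) hw m (by omega) hcard
  obtain ⟨p, hp⟩ := helly_labels lab (Λ.filter (fun z => x z + s * |y z| ≤ t)) μ (by omega) B hconv hmiss
  obtain ⟨q, hq⟩ := helly_labels lab (Λ.filter (fun z => t ≤ x z - s * |y z|)) μ (by omega) B hconv hmiss
  set c : ℝ × ℝ := (a.1 + t / D2 * d1, a.2 + t / D2 * d2) with hc
  refine ⟨c, p, q, fun k => ?_⟩
  by_cases hck : c ∈ B k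
  · exact Or.inl hck
  right
  obtain ⟨f, hf⟩ := geometric_hahn_banach_open_point (hconv k) (hopen k) hck
  set A := f (1, 0) * d1 + f (0, 1) * d2 with hA
  set Bt := f (0, 1) * d1 - f (1, 0) * d2 with hBt
  have hform : ∀ z, D2 * (f (lab z) - f c) = A * (x z - t) + Bt * y z := by
    intro z
    rw [functional_apply f (lab z), functional_apply f c]
    simp only [hc, hx, hy, hA, hBt, br]
    rw [← hd1, ← hd2]
    have hne : D2 ≠ 0 := hD2pos.ne'
    field_simp
    rw [hD2]
    ring
  have hin : ∀ z, lab z ∈ B k → A * (x z - t) + Bt * y z < 0 := by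
    intro z hz
    rw [← hform z]
    exact mul_neg_of_pos_of_neg hD2pos (by linarith [hf _ hz])
  -- a set of pairs of size `> μ` cannot be missed
  have hnomiss : ∀ V : Finset (Fin M), μ < V.card → ¬ (∀ i ∈ V, Misses lab (B k) i) := by
    intro V hV hall
    have : V.card ≤ μ := by
      refine le_trans ?_ (hmiss k)
      rw [Nat.card_eq_fintype_card, Fintype.card_subtype]
      apply Finset.card_le_card
      intro i hi
      exact Finset.mem_filter.mpr ⟨Finset.mem_univ _, hall i hi⟩
    omega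
  by_cases hslope : |Bt| ≤ s * |A|
  · rcases le_total A 0 with hA0 | hA0
    · left
      apply hp
      intro z hz hzB
      have h1 := (Finset.mem_filter.mp hz).2
      have h2 := hin z hzB
      have h3 : -Bt * y z ≤ |Bt| * |y z| := by
        rw [← abs_mul, neg_mul]; exact neg_le_abs _
      have h4 : |Bt| * |y z| ≤ s * |A| * |y z| := mul_le_mul_of_nonneg_right hslope (abs_nonneg _)
      rw [abs_of_nonpos hA0] at h4
      nlinarith
    · right
      apply hq
      intro z hz hzB
      have h1 := (Finset.mem_filter.mp hz).2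
      have h2 := hin z hzB
      have h3 : -Bt * y z ≤ |Bt| * |y z| := by
        rw [← abs_mul, neg_mul]; exact neg_le_abs _
      have h4 : |Bt| * |y z| ≤ s * |A| * |y z| := mul_le_mul_of_nonneg_right hslope (abs_nonneg _)
      rw [abs_of_nonneg hA0] at h4
      nlinarith
  · exfalso
    push Not at hslope
    -- labels of the relevant side lying in `B k` are in one strict cone
    have side : ∀ V : Finset (Fin M), V ⊆ U ∪ D → 2 * m + μ < V.card →
        (∀ i ∈ V, ∀ τ, 0 < Bt * y (i, τ)) → False := by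
      intro V hVsub hV hpos
      have hcone : ∃ C : Finset (Fin M × Bool), C.card < m ∧ ∀ i ∈ V, ∀ τ, lab (i, τ) ∈ B k → (i, τ) ∈ C := by
        rcases lt_trichotomy A 0 with hA0 | hA0 | hA0
        · refine ⟨_, hl2, ?_⟩
          intro i hi τ hB
          refine Finset.mem_filter.mpr ⟨Finset.mem_product.mpr ⟨hVsub hi, Finset.mem_univ _⟩, ?_⟩
          have h2 := hin _ hB
          have h3 : Bt * y (i, τ) = |Bt| * |y (i, τ)| := by
            rw [← abs_mul, abs_of_pos (hpos i hi τ)]
          have h4 : s * |A| * |y (i, τ)| ≤ |Bt| * |y (i, τ)| :=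
            mul_le_mul_of_nonneg_right hslope.le (abs_nonneg _)
          rw [abs_of_neg hA0] at h4
          have h5 : A * (x (i, τ) - s * |y (i, τ)| - t) < 0 := by nlinarith
          by_contra hcon
          push Not at hcon
          have := mul_nonneg_of_nonpos_of_nonpos hA0.le (by linarith : x (i, τ) - s * |y (i, τ)| - t ≤ 0)
          linarith
        · refine ⟨∅, by simpa using (by omega : 0 < m), ?_⟩
          intro i hi τ hB
          have h2 := hin _ hB
          have := hpos i hi τ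
          rw [hA0] at h2
          linarith
        · refine ⟨_, hl1, ?_⟩
          intro i hi τ hB
          refine Finset.mem_filter.mpr ⟨Finset.mem_product.mpr ⟨hVsub hi, Finset.mem_univ _⟩, ?_⟩
          have h2 := hin _ hB
          have h3 : Bt * y (i, τ) = |Bt| * |y (i, τ)| := by
            rw [← abs_mul, abs_of_pos (hpos i hi τ)]
          have h4 : s * |A| * |y (i, τ)| ≤ |Bt| * |y (i, τ)| :=
            mul_le_mul_of_nonneg_right hslope.le (abs_nonneg _)
          rw [abs_of_pos hA0] at h4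
          have h5 : A * (x (i, τ) + s * |y (i, τ)| - t) < 0 := by nlinarith
          by_contra hcon
          push Not at hcon
          have := mul_nonneg hA0.le (by linarith : 0 ≤ x (i, τ) + s * |y (i, τ)| - t)
          linarith
      obtain ⟨C, hC, hCin⟩ := hcone
      apply hnomiss (V \ C.image Prod.fst)
      · have h1 := Finset.le_card_sdiff (C.image Prod.fst) V
        have h2 : (C.image Prod.fst).card ≤ C.card := Finset.card_image_le
        omega
      · intro i hi
        have hi' := Finset.mem_sdiff.mp hi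
        constructor
        · intro hB
          exact hi'.2 (Finset.mem_image.mpr ⟨_, hCin i hi'.1 false hB, rfl⟩)
        · intro hB
          exact hi'.2 (Finset.mem_image.mpr ⟨_, hCin i hi'.1 true hB, rfl⟩)
    have hBne : Bt ≠ 0 := by
      intro h0
      rw [h0, abs_zero] at hslope
      have := mul_nonneg hs0 (abs_nonneg A)
      linarith
    rcases lt_or_gt_of_ne hBne with hB0 | hB0
    · apply side D Finset.subset_union_right hDc
      intro i hi τ
      exact mul_pos_of_neg_of_neg hB0 (hD i hi τ)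
    · apply side U Finset.subset_union_left hUc
      intro i hi τ
      exact mul_pos hB0 (hU i hi τ)

end Pool.KN
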