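import Pool.Agent.Helper31.TutteDefs

/-!
# A small verified algorithm for the Tutte polynomial of a concrete multigraph
-/

set_option autoImplicit false

namespace Pool.Agent.Helper31.Tutte

open Multigraph

section Poly

variable {M : Type} [AddCommMonoid M]

/-- evaluate a row of coefficients -/
def rowEval : List ℕ → (ℕ → M) → M
  | [], _ => 0
  | a :: l, w => a • w 0 + rowEval l (fun j => w (j + 1))

/-- evaluate a table of coefficients -/
def pEval : List (List ℕ) → (ℕ → ℕ → M) → M
  | [], _ => 0
  | r :: p, w => rowEval r (w 0) + pEval p (fun i => w (i + 1))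

/-- add two rows -/
def addRow : List ℕ → List ℕ → List ℕ
  | [], q => q
  | a :: p, [] => a :: p
  | a :: p, b :: q => (a + b) :: addRow p q

/-- add two tables -/
def addP : List (List ℕ) → List (List ℕ) → List (List ℕ)
  | [], q => q
  | a :: p, [] => a :: p
  | a :: p, b :: q => addRow a b :: addP p q

/-- multiply by the second variable -/
def shiftY (p : List (List ℕ)) : List (List ℕ) := p.map (fun r => 0 :: r)

/-- multiply by the first variable -/
def shiftX (p : List (List ℕ)) : List (List ℕ) := [] :: p

theorem rowEval_addRow (p q : List ℕ) (w : ℕ → M) :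
    rowEval (addRow p q) w = rowEval p w + rowEval q w := by
  induction p generalizing q w with
  | nil => simp [addRow, rowEval]
  | cons a p ih =>
    cases q with
    | nil => simp [addRow, rowEval]
    | cons b q => simp only [addRow, rowEval, ih, add_nsmul]; abel

theorem pEval_addP (p q : List (List ℕ)) (w : ℕ → ℕ → M) :
    pEval (addP p q) w = pEval p w + pEval q w := by
  induction p generalizing q w with
  | nil => simp [addP, pEval]
  | cons a p ih =>
    cases q with
    | nil => simp [addP, pEval]
    | cons b q => simp only [addP, pEval, ih, rowEval_addRow]; abel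

theorem pEval_shiftY (p : List (List ℕ)) (w : ℕ → ℕ → M) :
    pEval (shiftY p) w = pEval p (fun i j => w i (j + 1)) := by
  induction p generalizing w with
  | nil => simp [shiftY, pEval]
  | cons a p ih =>
    have := ih (fun i => w (i + 1))
    simp only [shiftY] at this
    simp only [shiftY, List.map_cons, pEval, rowEval, zero_nsmul, zero_add, this]

theorem pEval_shiftX (p : List (List ℕ)) (w : ℕ → ℕ → M) :
    pEval (shiftX p) w = pEval p (fun i j => w (i + 1) j) := by
  simp [shiftX, pEval, rowEval]

end Poly

/-- relabel: replace the label `x` by the label `y` -/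
def merge (s : List ℕ) (x y : ℕ) : List ℕ := s.map (fun z => if z = x then y else z)

/-- The rank/size table of all subsets of a list of edges, given the component labels `s`. -/
def tab : List (ℕ × ℕ) → List ℕ → List (List ℕ)
  | [], _ => [[1]]
  | e :: l, s =>
    if s.getD e.1 0 = s.getD e.2 0 then
      addP (tab l s) (shiftY (tab l s))
    else
      addP (tab l s) (shiftX (shiftY (tab l (merge s (s.getD e.1 0) (s.getD e.2 0)))))

variable {n : ℕ} {E : Type}

/-- the labels `s` describe the components of `(V, A)` -/
def Good (G : Multigraph (Fin n) E) (s : List ℕ) (A : Set E) : Prop :=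
  s.length = n ∧ ∀ u v : Fin n,
    s.getD u 0 = s.getD v 0 ↔ (G.spanning A).Reachable u v

/-- number of labels -/
def nl (n : ℕ) (s : List ℕ) : ℕ := (Finset.univ.image (fun v : Fin n => s.getD v 0)).card

theorem numComponents_eq (G : Multigraph (Fin n) E) (s : List ℕ) (A : Set E)
    (h : Good G s A) : G.numComponents A = nl n s := by
  classical
  unfold Multigraph.numComponents nl
  let f : (G.spanning A).ConnectedComponent → ℕ :=
    SimpleGraph.ConnectedComponent.lift (fun v => s.getD v 0) (by
      intro v w p _
      exact (h.2 v w).2 ⟨p⟩)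
  have hf : Function.Injective f := by
    intro c d hcd
    induction c using SimpleGraph.ConnectedComponent.ind with
    | _ v =>
      induction d using SimpleGraph.ConnectedComponent.ind with
      | _ w =>
        simp only [f, SimpleGraph.ConnectedComponent.lift_mk] at hcd
        exact SimpleGraph.ConnectedComponent.sound ((h.2 v w).1 hcd)
  have hr : Set.range f = ((Finset.univ.image (fun v : Fin n => s.getD v 0) : Finset ℕ) : Set ℕ) := by
    ext x
    constructor
    · rintro ⟨c, rfl⟩
      induction c using SimpleGraph.ConnectedComponent.ind with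
      | _ v => simp [f]
    · intro hx
      simp only [Finset.coe_image, Finset.coe_univ, Set.image_univ, Set.mem_range] at hx
      obtain ⟨v, rfl⟩ := hx
      exact ⟨(G.spanning A).connectedComponentMk v, by simp [f]⟩
  rw [← Nat.card_range_of_injective hf, hr, Nat.card_coe_set_eq, Set.ncard_coe_finset]

theorem nl_le (s : List ℕ) : nl n s ≤ n := by
  unfold nl
  exact le_trans Finset.card_image_le (by simp)

theorem getD_merge (s : List ℕ) (hs : s.length = n) (x y : ℕ) (v : Fin n) :
    (merge s x y).getD v 0 = if s.getD v 0 = x then y else s.getD v 0 := by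
  have hv : (v : ℕ) < s.length := by rw [hs]; exact v.2
  have hv' : (v : ℕ) < (merge s x y).length := by simpa [merge] using hv
  rw [List.getD_eq_getElem _ _ hv', List.getD_eq_getElem _ _ hv]
  simp [merge]

theorem nl_merge (s : List ℕ) (hs : s.length = n) (a b : Fin n)
    (hab : s.getD a 0 ≠ s.getD b 0) :
    nl n (merge s (s.getD a 0) (s.getD b 0)) + 1 = nl n s := by
  classical
  unfold nl
  have : (Finset.univ.image (fun v : Fin n => (merge s (s.getD a 0) (s.getD b 0)).getD v 0))
      = (Finset.univ.image (fun v : Fin n => s.getD v 0)).erase (s.getD a 0) := by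
    ext x
    simp only [Finset.mem_image, Finset.mem_univ, true_and, Finset.mem_erase]
    constructor
    · rintro ⟨v, rfl⟩
      rw [getD_merge s hs]
      split_ifs with h
      · exact ⟨hab.symm, b, rfl⟩
      · exact ⟨h, v, rfl⟩
    · rintro ⟨hx, v, rfl⟩
      refine ⟨v, ?_⟩
      rw [getD_merge s hs, if_neg hx]
  rw [this]
  apply Finset.card_erase_add_one
  simp only [Finset.mem_image, Finset.mem_univ, true_and]
  exact ⟨a, rfl⟩

theorem spanning_mono (G : Multigraph (Fin n) E) {A B : Set E} (h : A ⊆ B) :
    G.spanning A ≤ G.spanning B := by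
  intro u v huv
  exact ⟨huv.1, huv.2.imp fun e he => ⟨h he.1, he.2⟩⟩

theorem good_insert_same (G : Multigraph (Fin n) E) (s : List ℕ) (A : Set E) (e : E)
    (a b : Fin n) (he : G.ends e = s(a, b)) (h : Good G s A)
    (hab : s.getD a 0 = s.getD b 0) : Good G s (insert e A) := by
  refine ⟨h.1, fun u v => ⟨fun huv => ?_, fun huv => ?_⟩⟩
  · exact ((h.2 u v).1 huv).mono (spanning_mono G (Set.subset_insert e A))
  · obtain ⟨p⟩ := huv
    induction p with
    | nil => rfl
    | cons hadj _ ih =>
      rw [← ih]
      obtain ⟨hne, e', he', h'⟩ := hadj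
      rcases he' with rfl | he'
      · rw [he] at h'
        rcases Sym2.eq_iff.1 h' with ⟨rfl, rfl⟩ | ⟨rfl, rfl⟩
        · exact hab
        · exact hab.symm
      · exact (h.2 _ _).2 (SimpleGraph.Adj.reachable ⟨hne, e', he', h'⟩)

theorem good_insert_merge (G : Multigraph (Fin n) E) (s : List ℕ) (A : Set E) (e : E)
    (a b : Fin n) (he : G.ends e = s(a, b)) (h : Good G s A)
    (hab : s.getD a 0 ≠ s.getD b 0) :
    Good G (merge s (s.getD a 0) (s.getD b 0)) (insert e A) := by
  have hne : a ≠ b := by rintro rfl; exact hab rfl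
  have hsub := spanning_mono G (Set.subset_insert e A)
  have hadj : (G.spanning (insert e A)).Reachable a b :=
    SimpleGraph.Adj.reachable ⟨hne, e, Set.mem_insert _ _, he⟩
  have key : ∀ u v : Fin n, s.getD u 0 = s.getD v 0 → (G.spanning (insert e A)).Reachable u v :=
    fun u v huv => ((h.2 u v).1 huv).mono hsub
  refine ⟨by simpa [merge] using h.1, fun u v => ⟨fun huv => ?_, fun huv => ?_⟩⟩
  · rw [getD_merge s h.1, getD_merge s h.1] at huv
    split_ifs at huv with h1 h2 h2
    · exact key u v (h1.trans h2.symm)
    · exact ((key u a h1).trans hadj).trans (key b v huv)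
    · exact ((key u b huv).trans hadj.symm).trans (key a v h2.symm)
    · exact key u v huv
  · obtain ⟨p⟩ := huv
    induction p with
    | nil => rfl
    | cons hadj _ ih =>
      rw [← ih]
      obtain ⟨hne, e', he', h'⟩ := hadj
      rw [getD_merge s h.1, getD_merge s h.1]
      rcases he' with rfl | he'
      · rw [he] at h'
        rcases Sym2.eq_iff.1 h' with ⟨rfl, rfl⟩ | ⟨rfl, rfl⟩
        · rw [if_pos rfl, if_neg hab.symm]
        · rw [if_pos rfl, if_neg hab.symm]
      · rw [(h.2 _ _).2 (SimpleGraph.Adj.reachable ⟨hne, e', he', h'⟩)]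

theorem rank_eq (G : Multigraph (Fin n) E) (s : List ℕ) (A : Set E)
    (h : Good G s A) : G.rank A = n - nl n s := by
  unfold Multigraph.rank
  rw [numComponents_eq G s A h]
  simp

theorem rank_insert_same (G : Multigraph (Fin n) E) (s : List ℕ) (A : Set E) (e : E)
    (a b : Fin n) (he : G.ends e = s(a, b)) (h : Good G s A)
    (hab : s.getD a 0 = s.getD b 0) : G.rank (insert e A) = G.rank A := by
  rw [rank_eq G s A h, rank_eq G s _ (good_insert_same G s A e a b he h hab)]

theorem rank_insert_merge (G : Multigraph (Fin n) E) (s : List ℕ) (A : Set E) (e : E)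
    (a b : Fin n) (he : G.ends e = s(a, b)) (h : Good G s A)
    (hab : s.getD a 0 ≠ s.getD b 0) : G.rank (insert e A) = G.rank A + 1 := by
  rw [rank_eq G s A h, rank_eq G _ _ (good_insert_merge G s A e a b he h hab)]
  have h1 := nl_merge s h.1 a b hab
  have h2 := nl_le (n := n) s
  omega

theorem tab_spec [DecidableEq E] {M : Type} [AddCommMonoid M] (G : Multigraph (Fin n) E)
    (pr : E → Fin n × Fin n) (hpr : ∀ e, G.ends e = s((pr e).1, (pr e).2)) :
    ∀ (l : List E), l.Nodup → ∀ (A : Set E) (s : List ℕ), Good G s A → ∀ (w : ℕ → ℕ → M),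
      ∑ B ∈ l.toFinset.powerset, w (G.rank (A ∪ (B : Set E))) B.card =
        pEval (tab (l.map fun e => (((pr e).1 : ℕ), ((pr e).2 : ℕ))) s)
          (fun i j => w (G.rank A + i) j) := by
  intro l
  induction l with
  | nil =>
    intro _ A s _ w
    simp [tab, pEval, rowEval]
  | cons e l ih =>
    intro hl A s hs w
    have he : e ∉ l.toFinset := by
      simpa using (List.nodup_cons.1 hl).1
    have hl' := (List.nodup_cons.1 hl).2
    rw [List.toFinset_cons, Finset.sum_powerset_insert he]
    have hsecond : ∑ B ∈ l.toFinset.powerset, w (G.rank (A ∪ ((insert e B : Finset E) : Set E)))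
        (insert e B).card =
        ∑ B ∈ l.toFinset.powerset, (fun i j => w i (j + 1)) (G.rank (insert e A ∪ (B : Set E)))
          B.card := by
      apply Finset.sum_congr rfl
      intro B hB
      have heB : e ∉ B := fun h => he (Finset.mem_powerset.1 hB h)
      rw [Finset.card_insert_of_notMem heB]
      have : (A ∪ ((insert e B : Finset E) : Set E)) = insert e A ∪ (B : Set E) := by
        ext x; simp only [Finset.coe_insert, Set.mem_union, Set.mem_insert_iff]; tauto
      rw [this]
    rw [hsecond, ih hl' A s hs w]
    by_cases hab : s.getD (pr e).1 0 = s.getD (pr e).2 0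
    · have hg := good_insert_same G s A e _ _ (hpr e) hs hab
      rw [ih hl' (insert e A) s hg (fun i j => w i (j + 1)),
        rank_insert_same G s A e _ _ (hpr e) hs hab]
      simp only [List.map_cons, tab]
      rw [if_pos hab, pEval_addP, pEval_shiftY]
    · have hg := good_insert_merge G s A e _ _ (hpr e) hs hab
      rw [ih hl' (insert e A) _ hg (fun i j => w i (j + 1)),
        rank_insert_merge G s A e _ _ (hpr e) hs hab]
      simp only [List.map_cons, tab]
      rw [if_neg hab, pEval_addP, pEval_shiftX, pEval_shiftY]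
      simp only [add_assoc, add_comm 1]

theorem good_init (G : Multigraph (Fin n) E) : Good G (List.range n) (∅ : Set E) := by
  refine ⟨by simp, fun u v => ?_⟩
  have h : ∀ w : Fin n, (List.range n).getD w 0 = w := by
    intro w
    rw [List.getD_eq_getElem _ _ (by simp)]
    simp
  rw [h, h]
  constructor
  · intro huv
    have : u = v := Fin.ext huv
    rw [this]
  · rintro ⟨p⟩
    cases p with
    | nil => rfl
    | cons hadj _ => obtain ⟨_, e, he, _⟩ := hadj; exact absurd he (by simp)

theorem rank_empty (G : Multigraph (Fin n) E) : G.rank (∅ : Set E) = 0 := by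
  rw [rank_eq G _ _ (good_init G)]
  unfold nl
  have h : ∀ w : Fin n, (List.range n).getD w 0 = w := by
    intro w
    rw [List.getD_eq_getElem _ _ (by simp)]
    simp
  simp only [h]
  rw [Finset.card_image_of_injective _ Fin.val_injective]
  simp

/-- The sum over all edge sets as a table evaluation. -/
theorem sum_eq_pEval {m : ℕ} {M : Type} [AddCommMonoid M] (G : Multigraph (Fin n) (Fin m))
    (pr : Fin m → Fin n × Fin n) (hpr : ∀ e, G.ends e = s((pr e).1, (pr e).2))
    (w : ℕ → ℕ → M) :
    ∑ B : Finset (Fin m), w (G.rank (B : Set (Fin m))) B.card =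
      pEval (tab ((List.finRange m).map fun e => (((pr e).1 : ℕ), ((pr e).2 : ℕ))) (List.range n)) w := by
  have h := tab_spec G pr hpr (List.finRange m) (List.nodup_finRange m) ∅ (List.range n)
    (good_init G) w
  have h2 : (List.finRange m).toFinset = Finset.univ := by ext; simp
  rw [h2, Finset.powerset_univ, rank_empty] at h
  simp only [Set.empty_union, zero_add] at h
  exact h

/-- labels after adding a list of edges -/
def labs : List (ℕ × ℕ) → List ℕ → List ℕ
  | [], s => s
  | e :: l, s =>
    if s.getD e.1 0 = s.getD e.2 0 then labs l s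
    else labs l (merge s (s.getD e.1 0) (s.getD e.2 0))

theorem labs_good (G : Multigraph (Fin n) E)
    (pr : E → Fin n × Fin n) (hpr : ∀ e, G.ends e = s((pr e).1, (pr e).2)) :
    ∀ (l : List E) (A : Set E) (s : List ℕ), Good G s A →
      Good G (labs (l.map fun e => (((pr e).1 : ℕ), ((pr e).2 : ℕ))) s) (A ∪ {e | e ∈ l}) := by
  intro l
  induction l with
  | nil => intro A s hs; simpa [labs] using hs
  | cons e l ih =>
    intro A s hs
    have hset : (A ∪ {x | x ∈ e :: l}) = insert e A ∪ {x | x ∈ l} := by
      ext x; simp; tauto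
    rw [hset]
    simp only [List.map_cons, labs]
    split_ifs with hab
    · exact ih _ _ (good_insert_same G s A e _ _ (hpr e) hs hab)
    · exact ih _ _ (good_insert_merge G s A e _ _ (hpr e) hs hab)

theorem labs_good_univ {m : ℕ} (G : Multigraph (Fin n) (Fin m))
    (pr : Fin m → Fin n × Fin n) (hpr : ∀ e, G.ends e = s((pr e).1, (pr e).2)) :
    Good G (labs ((List.finRange m).map fun e => (((pr e).1 : ℕ), ((pr e).2 : ℕ))) (List.range n))
      Set.univ := by
  have h := labs_good G pr hpr (List.finRange m) ∅ (List.range n) (good_init G)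
  have : (∅ ∪ {e | e ∈ List.finRange m} : Set (Fin m)) = Set.univ := by ext; simp
  rwa [this] at h

/-- If two multigraphs have the same table and the same total rank, they have the same Tutte
polynomial. -/
theorem tutte_eq_of_tab {n' m : ℕ} (G : Multigraph (Fin n) (Fin m)) (H : Multigraph (Fin n') (Fin m))
    (pr : Fin m → Fin n × Fin n) (hpr : ∀ e, G.ends e = s((pr e).1, (pr e).2))
    (pr' : Fin m → Fin n' × Fin n') (hpr' : ∀ e, H.ends e = s((pr' e).1, (pr' e).2))
    (hr : G.rank Set.univ = H.rank Set.univ)
    (ht : tab ((List.finRange m).map fun e => (((pr e).1 : ℕ), ((pr e).2 : ℕ))) (List.range n) =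
      tab ((List.finRange m).map fun e => (((pr' e).1 : ℕ), ((pr' e).2 : ℕ))) (List.range n')) :
    G.tutte = H.tutte := by
  unfold Multigraph.tutte
  have h1 := sum_eq_pEval G pr hpr
    (fun i j => (MvPolynomial.X (R := ℤ) (0 : Fin 2) - 1) ^ (G.rank Set.univ - i) *
      (MvPolynomial.X (R := ℤ) (1 : Fin 2) - 1) ^ (j - i))
  have h2 := sum_eq_pEval H pr' hpr'
    (fun i j => (MvPolynomial.X (R := ℤ) (0 : Fin 2) - 1) ^ (G.rank Set.univ - i) *
      (MvPolynomial.X (R := ℤ) (1 : Fin 2) - 1) ^ (j - i))
  rw [ht, ← h2] at h1
  rw [h1, hr]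

end Pool.Agent.Helper31.Tutte
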