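import Mathlib

/-!
# Multigraphs, the Tutte polynomial, outerplanarity and 3-connectivity

Definitions used by the hand-ins on MP_f03b0a_co.
-/

set_option autoImplicit false

namespace Pool.Agent.Helper31.Tutte

open MvPolynomial

/-- A multigraph with vertex set `V` and edge set `E`. Every edge has an unordered pair of
ends. Loops (`ends e = s(v, v)`) and parallel edges are allowed. -/
structure Multigraph (V E : Type) where
  /-- the unordered pair of ends of an edge -/
  ends : E → Sym2 V

namespace Multigraph

variable {V E : Type}

/-- The spanning subgraph `(V, A)`, recorded as a simple graph (loops and multiplicities do not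
matter for connectedness): two distinct vertices are adjacent when some edge of `A` joins them. -/
def spanning (G : Multigraph V E) (A : Set E) : SimpleGraph V where
  Adj u v := u ≠ v ∧ ∃ e ∈ A, G.ends e = s(u, v)
  symm := ⟨fun u v ⟨huv, e, he, h⟩ => ⟨huv.symm, e, he, by rw [h, Sym2.eq_swap]⟩⟩
  loopless := ⟨fun v h => h.1 rfl⟩

/-- `k(V, A)`: the number of connected components of the spanning subgraph `(V, A)`. -/
noncomputable def numComponents (G : Multigraph V E) (A : Set E) : ℕ :=
  Nat.card (G.spanning A).ConnectedComponent

/-- The rank `r(A) = |V| - k(V, A)`. -/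
noncomputable def rank (G : Multigraph V E) (A : Set E) : ℕ :=
  Nat.card V - G.numComponents A

/-- The Tutte polynomial
`T(G; x, y) = ∑_{A ⊆ E} (x - 1)^(r(E) - r(A)) (y - 1)^(|A| - r(A))`,
with `x = X 0` and `y = X 1`. -/
noncomputable def tutte [Fintype E] (G : Multigraph V E) : MvPolynomial (Fin 2) ℤ :=
  ∑ A : Finset E,
    (X 0 - 1) ^ (G.rank Set.univ - G.rank (A : Set E)) *
      (X 1 - 1) ^ (A.card - G.rank (A : Set E))

/-- `G` is connected. -/
def Connected (G : Multigraph V E) : Prop := (G.spanning Set.univ).Connected

/-- `G` is outerplanar: its vertices can be placed on a circle, in the cyclic order given by an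
injective numbering `f`, so that no two edges, drawn as chords, cross. (Chords with ends `a, b`
and `c, d` cross iff their ends interleave.) This is the standard combinatorial form of having
a planar embedding in which every vertex lies on the boundary of the outer face. -/
def IsOuterplanar (G : Multigraph V E) : Prop :=
  ∃ f : V → ℕ, Function.Injective f ∧
    ∀ (e e' : E) (a b c d : V), G.ends e = s(a, b) → G.ends e' = s(c, d) →
      ¬ (f a < f c ∧ f c < f b ∧ f b < f d)

/-- `K_{2,3}` is a minor of `G`: there are five pairwise disjoint vertex sets `B 0, ..., B 4`,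
each inducing a (nonempty) connected subgraph, such that `G` has an edge between `B i` and `B j`
for all `i ∈ {0, 1}` and `j ∈ {2, 3, 4}`. (Outerplanar graphs have no such minor.) -/
def HasK23Minor (G : Multigraph V E) : Prop :=
  ∃ B : Fin 5 → Set V,
    (∀ i, ((G.spanning Set.univ).induce (B i)).Connected) ∧
    (∀ i j, i ≠ j → Disjoint (B i) (B j)) ∧
    ∀ i j : Fin 5, i < 2 → 2 ≤ j → ∃ e : E, ∃ u ∈ B i, ∃ v ∈ B j, G.ends e = s(u, v)

/-- `G` is 3-connected: it has at least 4 vertices and stays connected after deleting any set
of at most 2 vertices. -/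
def IsThreeConnected (G : Multigraph V E) : Prop :=
  4 ≤ Nat.card V ∧ ∀ S : Finset V, S.card ≤ 2 →
    ((G.spanning Set.univ).induce {v : V | v ∉ S}).Connected

end Multigraph

end Pool.Agent.Helper31.Tutte
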