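import Pool.Agent.Helper31.TutteCompute

/-!
# Outerplanarity is not determined by the Tutte polynomial: proofs
-/

set_option autoImplicit false
namespace Pool.Agent.Helper31.Tutte
open Multigraph

/-- ends of the edges of the outerplanar graph: a 4-cycle `0,1,2,3` with `2-3` doubled, `0-1`
doubled, a triangle on `0-1` (apex 4) and a triangle on `1-2` (apex 5) -/
def prG : Fin 10 → Fin 6 × Fin 6 :=
  ![(3, 0), (0, 1), (0, 1), (0, 4), (4, 1), (1, 2), (1, 5), (5, 2), (2, 3), (2, 3)]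

/-- ends of the edges of the non-outerplanar graph: the edge `0-1`, a triangle `0,1,2` with `1-2`
doubled, a triangle `0,1,3` and a 4-cycle `0,4,5,1` with `0-4` doubled -/
def prH : Fin 10 → Fin 6 × Fin 6 :=
  ![(0, 1), (0, 2), (2, 1), (2, 1), (0, 3), (3, 1), (0, 4), (0, 4), (4, 5), (5, 1)]

/-- the outerplanar graph -/
def gG : Multigraph (Fin 6) (Fin 10) := ⟨fun e => s((prG e).1, (prG e).2)⟩

/-- the non-outerplanar graph -/
def gH : Multigraph (Fin 6) (Fin 10) := ⟨fun e => s((prH e).1, (prH e).2)⟩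

theorem rankG : gG.rank Set.univ = 5 := by
  rw [rank_eq gG _ _ (labs_good_univ gG prG (fun _ => rfl))]
  decide +kernel

theorem rankH : gH.rank Set.univ = 5 := by
  rw [rank_eq gH _ _ (labs_good_univ gH prH (fun _ => rfl))]
  decide +kernel

theorem tutte_eq : gG.tutte = gH.tutte := by
  apply tutte_eq_of_tab gG gH prG (fun _ => rfl) prH (fun _ => rfl)
  · rw [rankG, rankH]
  · decide +kernel

/-- A concrete multigraph is connected if the component labels are all equal. -/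
theorem connected_of_labs {n m : ℕ} (G : Multigraph (Fin (n + 1)) (Fin m))
    (pr : Fin m → Fin (n + 1) × Fin (n + 1)) (hpr : ∀ e, G.ends e = s((pr e).1, (pr e).2))
    (h : ∀ u v : Fin (n + 1),
      (labs ((List.finRange m).map fun e => (((pr e).1 : ℕ), ((pr e).2 : ℕ)))
        (List.range (n + 1))).getD u 0 =
      (labs ((List.finRange m).map fun e => (((pr e).1 : ℕ), ((pr e).2 : ℕ)))
        (List.range (n + 1))).getD v 0) : G.Connected := by
  have hg := labs_good_univ G pr hpr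
  exact (SimpleGraph.connected_iff _).2 ⟨fun u v => (hg.2 u v).1 (h u v), ⟨0⟩⟩

theorem connG : gG.Connected := connected_of_labs gG prG (fun _ => rfl) (by decide +kernel)

theorem connH : gH.Connected := connected_of_labs gH prH (fun _ => rfl) (by decide +kernel)

theorem outerG : gG.IsOuterplanar := by
  refine ⟨![0, 2, 4, 5, 1, 3], by decide, ?_⟩
  have key : ∀ e e' : Fin 10, ∀ x ∈ [((prG e).1, (prG e).2), ((prG e).2, (prG e).1)],
      ∀ y ∈ [((prG e').1, (prG e').2), ((prG e').2, (prG e').1)],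
      ¬ ((![0, 2, 4, 5, 1, 3] : Fin 6 → ℕ) x.1 < (![0, 2, 4, 5, 1, 3] : Fin 6 → ℕ) y.1 ∧
        (![0, 2, 4, 5, 1, 3] : Fin 6 → ℕ) y.1 < (![0, 2, 4, 5, 1, 3] : Fin 6 → ℕ) x.2 ∧
        (![0, 2, 4, 5, 1, 3] : Fin 6 → ℕ) x.2 < (![0, 2, 4, 5, 1, 3] : Fin 6 → ℕ) y.2) := by
    decide +kernel
  intro e e' a b c d h h'
  apply key e e' (a, b) _ (c, d) _
  · rcases Sym2.eq_iff.1 h with ⟨rfl, rfl⟩ | ⟨rfl, rfl⟩ <;> simp
  · rcases Sym2.eq_iff.1 h' with ⟨rfl, rfl⟩ | ⟨rfl, rfl⟩ <;> simp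

/-- the chords with ends `a, b` and `c, d` cross -/
def Cr (a b c d : ℕ) : Prop :=
  (min a b < min c d ∧ min c d < max a b ∧ max a b < max c d) ∨
  (min c d < min a b ∧ min a b < max c d ∧ max c d < max a b)

/-- `a` lies strictly between `p` and `q` -/
def In (p q a : ℕ) : Prop := min p q < a ∧ a < max p q

theorem lem1 (p q a b : ℕ) (h1 : p ≠ q) (h2 : a ≠ p) (h3 : a ≠ q) (h4 : b ≠ p) (h5 : b ≠ q)
    (h6 : a ≠ b) (c1 : ¬ Cr p a q b) (c2 : ¬ Cr p b q a) : (In p q a ↔ ¬ In p q b) := by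
  unfold Cr at *
  unfold In
  rcases lt_or_gt_of_ne h1 with h1 | h1 <;> rcases lt_or_gt_of_ne h2 with h2 | h2 <;>
  rcases lt_or_gt_of_ne h3 with h3 | h3 <;> rcases lt_or_gt_of_ne h4 with h4 | h4 <;>
  rcases lt_or_gt_of_ne h5 with h5 | h5 <;> rcases lt_or_gt_of_ne h6 with h6 | h6 <;>
  omega

theorem lem2 (p q a c d : ℕ) (h1 : p ≠ q) (h2 : a ≠ p) (h3 : a ≠ q) (h4 : c ≠ p) (h5 : c ≠ q)
    (h6 : d ≠ p) (h7 : d ≠ q) (h8 : a ≠ c) (h9 : a ≠ d) (h10 : c ≠ d)
    (c0 : ¬ Cr p q c d) (c1 : ¬ Cr p a c d) (c2 : ¬ Cr q a c d) (c3 : ¬ Cr p a q d)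
    (c4 : ¬ Cr p c q a) : (In p q a ↔ ¬ In p q c) := by
  unfold Cr at *
  unfold In
  rcases lt_or_gt_of_ne h1 with h1 | h1 <;> rcases lt_or_gt_of_ne h2 with h2 | h2 <;>
  rcases lt_or_gt_of_ne h3 with h3 | h3 <;> rcases lt_or_gt_of_ne h4 with h4 | h4 <;>
  rcases lt_or_gt_of_ne h5 with h5 | h5 <;> rcases lt_or_gt_of_ne h8 with h8 | h8 <;>
  omega

theorem not_outerH : ¬ gH.IsOuterplanar := by
  rintro ⟨f, hf, h⟩
  have ne : ∀ a b : Fin 6, a ≠ b → f a ≠ f b := fun a b hab e => hab (hf e)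
  have cross : ∀ (e e' : Fin 10) (a b c d : Fin 6), gH.ends e = s(a, b) → gH.ends e' = s(c, d) →
      ¬ Cr (f a) (f b) (f c) (f d) := by
    intro e e' a b c d he he' hc
    have e1 := h e e' a b c d he he'
    have e2 := h e e' a b d c he (by rw [he', Sym2.eq_swap])
    have e3 := h e e' b a c d (by rw [he, Sym2.eq_swap]) he'
    have e4 := h e e' b a d c (by rw [he, Sym2.eq_swap]) (by rw [he', Sym2.eq_swap])
    have g1 := h e' e c d a b he' he
    have g2 := h e' e c d b a he' (by rw [he, Sym2.eq_swap])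
    have g3 := h e' e d c a b (by rw [he', Sym2.eq_swap]) he
    have g4 := h e' e d c b a (by rw [he', Sym2.eq_swap]) (by rw [he, Sym2.eq_swap])
    unfold Cr at hc
    rcases hc with hc | hc <;> omega
  have A := lem1 (f 0) (f 1) (f 2) (f 3) (ne _ _ (by decide)) (ne _ _ (by decide))
    (ne _ _ (by decide)) (ne _ _ (by decide)) (ne _ _ (by decide)) (ne _ _ (by decide))
    (cross 1 5 0 2 1 3 rfl (by decide)) (cross 4 2 0 3 1 2 rfl (by decide))
  have B := lem2 (f 0) (f 1) (f 2) (f 4) (f 5) (ne _ _ (by decide)) (ne _ _ (by decide))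
    (ne _ _ (by decide)) (ne _ _ (by decide)) (ne _ _ (by decide)) (ne _ _ (by decide))
    (ne _ _ (by decide)) (ne _ _ (by decide)) (ne _ _ (by decide)) (ne _ _ (by decide))
    (cross 0 8 0 1 4 5 rfl rfl) (cross 1 8 0 2 4 5 rfl rfl) (cross 2 8 1 2 4 5 (by decide) rfl)
    (cross 1 9 0 2 1 5 rfl (by decide)) (cross 6 2 0 4 1 2 rfl (by decide))
  have C := lem2 (f 0) (f 1) (f 3) (f 4) (f 5) (ne _ _ (by decide)) (ne _ _ (by decide))
    (ne _ _ (by decide)) (ne _ _ (by decide)) (ne _ _ (by decide)) (ne _ _ (by decide))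
    (ne _ _ (by decide)) (ne _ _ (by decide)) (ne _ _ (by decide)) (ne _ _ (by decide))
    (cross 0 8 0 1 4 5 rfl rfl) (cross 4 8 0 3 4 5 rfl rfl) (cross 5 8 1 3 4 5 (by decide) rfl)
    (cross 4 9 0 3 1 5 rfl (by decide)) (cross 6 5 0 4 1 3 rfl (by decide))
  tauto

/-- the branch sets of a `K_{2,3}`-minor -/
def brH : Fin 5 → Set (Fin 6) := ![{0}, {1}, {2}, {3}, {4, 5}]

theorem minorH : gH.HasK23Minor := by
  have hsing : ∀ x : Fin 6, ((gH.spanning Set.univ).induce ({x} : Set (Fin 6))).Connected := by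
    intro x
    refine (SimpleGraph.connected_iff _).2 ⟨?_, ⟨⟨x, rfl⟩⟩⟩
    rintro ⟨u, hu⟩ ⟨v, hv⟩
    have hu' : u = x := hu
    have hv' : v = x := hv
    subst hu'
    subst hv'
    exact SimpleGraph.Reachable.refl _
  have hadj : (gH.spanning Set.univ).Adj 4 5 := ⟨by decide, 8, Set.mem_univ _, rfl⟩
  have hpair : ((gH.spanning Set.univ).induce ({4, 5} : Set (Fin 6))).Connected := by
    refine (SimpleGraph.connected_iff _).2 ⟨?_, ⟨⟨4, by simp⟩⟩⟩
    have key : ((gH.spanning Set.univ).induce ({4, 5} : Set (Fin 6))).Reachable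
        ⟨4, by simp⟩ ⟨5, by simp⟩ := SimpleGraph.Adj.reachable (by
          show (gH.spanning Set.univ).Adj 4 5
          exact hadj)
    rintro ⟨u, hu⟩ ⟨v, hv⟩
    rcases hu with rfl | hu <;> rcases hv with rfl | hv
    · exact SimpleGraph.Reachable.refl _
    · have hv' : v = 5 := hv
      subst hv'
      exact key
    · have hu' : u = 5 := hu
      subst hu'
      exact key.symm
    · have hv' : v = 5 := hv
      have hu' : u = 5 := hu
      subst hv'
      subst hu'
      exact SimpleGraph.Reachable.refl _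
  refine ⟨brH, ?_, ?_, ?_⟩
  · intro i
    fin_cases i
    · exact hsing 0
    · exact hsing 1
    · exact hsing 2
    · exact hsing 3
    · exact hpair
  · intro i j hij
    fin_cases i <;> fin_cases j <;> simp_all [brH]
  · have h0 : ∀ j : Fin 5, 2 ≤ j → ∃ e : Fin 10, ∃ u ∈ brH 0, ∃ v ∈ brH j,
        gH.ends e = s(u, v) := by
      intro j hj
      fin_cases j
      · exact absurd hj (by decide)
      · exact absurd hj (by decide)
      · exact ⟨1, 0, rfl, 2, rfl, rfl⟩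
      · exact ⟨4, 0, rfl, 3, rfl, rfl⟩
      · exact ⟨6, 0, rfl, 4, Or.inl rfl, rfl⟩
    have h1 : ∀ j : Fin 5, 2 ≤ j → ∃ e : Fin 10, ∃ u ∈ brH 1, ∃ v ∈ brH j,
        gH.ends e = s(u, v) := by
      intro j hj
      fin_cases j
      · exact absurd hj (by decide)
      · exact absurd hj (by decide)
      · exact ⟨2, 1, rfl, 2, rfl, by decide⟩
      · exact ⟨5, 1, rfl, 3, rfl, by decide⟩
      · exact ⟨9, 1, rfl, 5, Or.inr rfl, by decide⟩
    intro i j hi hj
    fin_cases i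
    · exact h0 j hj
    · exact h1 j hj
    · exact absurd hi (by decide)
    · exact absurd hi (by decide)
    · exact absurd hi (by decide)

end Pool.Agent.Helper31.Tutte
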