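import Pool.Agent.Helper31.TutteCompute

/-!
# 3-connectivity is not determined by the Tutte polynomial: proofs
-/

set_option autoImplicit false
namespace Pool.Agent.Helper31.Tutte
open Multigraph

/-- ends of the edges of the 3-connected graph -/
def prK : Fin 13 → Fin 6 × Fin 6 :=
  ![(0, 1), (0, 2), (0, 3), (0, 4), (0, 4), (0, 5), (1, 2), (1, 3), (1, 3), (1, 4), (2, 4),
    (2, 5), (3, 5)]

/-- ends of the edges of the graph that is not 3-connected: vertex `5` has only the two
neighbours `0` and `3` -/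
def prL : Fin 13 → Fin 6 × Fin 6 :=
  ![(0, 1), (0, 2), (0, 4), (0, 5), (0, 5), (1, 2), (1, 2), (1, 3), (1, 4), (2, 3), (2, 4),
    (3, 4), (3, 5)]

/-- the 3-connected graph -/
def gK : Multigraph (Fin 6) (Fin 13) := ⟨fun e => s((prK e).1, (prK e).2)⟩

/-- the graph that is not 3-connected -/
def gL : Multigraph (Fin 6) (Fin 13) := ⟨fun e => s((prL e).1, (prL e).2)⟩

theorem rankK : gK.rank Set.univ = 5 := by
  rw [rank_eq gK _ _ (labs_good_univ gK prK (fun _ => rfl))]
  decide +kernel

theorem rankL : gL.rank Set.univ = 5 := by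
  rw [rank_eq gL _ _ (labs_good_univ gL prL (fun _ => rfl))]
  decide +kernel

theorem tutte_eqKL : gK.tutte = gL.tutte := by
  apply tutte_eq_of_tab gK gL prK (fun _ => rfl) prL (fun _ => rfl)
  · rw [rankK, rankL]
  · decide +kernel

theorem conn_of_labs {n m : ℕ} (G : Multigraph (Fin (n + 1)) (Fin m))
    (pr : Fin m → Fin (n + 1) × Fin (n + 1)) (hpr : ∀ e, G.ends e = s((pr e).1, (pr e).2))
    (h : ∀ u v : Fin (n + 1),
      (labs ((List.finRange m).map fun e => (((pr e).1 : ℕ), ((pr e).2 : ℕ)))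
        (List.range (n + 1))).getD u 0 =
      (labs ((List.finRange m).map fun e => (((pr e).1 : ℕ), ((pr e).2 : ℕ)))
        (List.range (n + 1))).getD v 0) : G.Connected := by
  have hg := labs_good_univ G pr hpr
  exact (SimpleGraph.connected_iff _).2 ⟨fun u v => (hg.2 u v).1 (h u v), ⟨0⟩⟩

theorem connK : gK.Connected := conn_of_labs gK prK (fun _ => rfl) (by decide +kernel)

theorem connL : gL.Connected := conn_of_labs gL prL (fun _ => rfl) (by decide +kernel)

/-- the edges avoiding a vertex set `S` -/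
def avoid {n m : ℕ} (pr : Fin m → Fin n × Fin n) (S : Finset (Fin n)) : List (Fin m) :=
  (List.finRange m).filter fun e => (pr e).1 ∉ S ∧ (pr e).2 ∉ S

theorem induce_connected {n m : ℕ} (G : Multigraph (Fin n) (Fin m))
    (pr : Fin m → Fin n × Fin n) (hpr : ∀ e, G.ends e = s((pr e).1, (pr e).2))
    (S : Finset (Fin n)) (r : Fin n) (hr : r ∉ S)
    (h : ∀ v : Fin n, v ∉ S →
      (labs ((avoid pr S).map fun e => (((pr e).1 : ℕ), ((pr e).2 : ℕ))) (List.range n)).getD r 0 =
      (labs ((avoid pr S).map fun e => (((pr e).1 : ℕ), ((pr e).2 : ℕ))) (List.range n)).getD v 0) :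
    ((G.spanning Set.univ).induce {v : Fin n | v ∉ S}).Connected := by
  have hg := labs_good G pr hpr (avoid pr S) ∅ (List.range n) (good_init G)
  rw [Set.empty_union] at hg
  have step : ∀ u v : Fin n, (G.spanning {e | e ∈ avoid pr S}).Reachable u v →
      ∀ (hu : u ∉ S), ∃ hv : v ∉ S,
        ((G.spanning Set.univ).induce {v : Fin n | v ∉ S}).Reachable ⟨u, hu⟩ ⟨v, hv⟩ := by
    rintro u v ⟨p⟩
    induction p with
    | nil => exact fun hu => ⟨hu, SimpleGraph.Reachable.refl _⟩
    | @cons a b c hadj _ ih =>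
      intro ha
      obtain ⟨hne, e, he, hends⟩ := hadj
      have hmem : (pr e).1 ∉ S ∧ (pr e).2 ∉ S := by
        have := he
        simp only [avoid, Set.mem_ofPred_eq, List.mem_filter, List.mem_finRange, true_and,
          decide_eq_true_eq] at this
        exact this
      have hb : b ∉ S := by
        rw [hpr e] at hends
        rcases Sym2.eq_iff.1 hends with ⟨h1, h2⟩ | ⟨h1, h2⟩
        · rw [← h2]; exact hmem.2
        · rw [← h1]; exact hmem.1
      obtain ⟨hc, hreach⟩ := ih hb
      refine ⟨hc, SimpleGraph.Reachable.trans ?_ hreach⟩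
      apply SimpleGraph.Adj.reachable
      show (G.spanning Set.univ).Adj a b
      exact ⟨hne, e, Set.mem_univ e, hends⟩
  refine (SimpleGraph.connected_iff _).2 ⟨?_, ⟨⟨r, hr⟩⟩⟩
  have hroot : ∀ v : {v : Fin n | v ∉ S},
      ((G.spanning Set.univ).induce {v : Fin n | v ∉ S}).Reachable ⟨r, hr⟩ v := by
    rintro ⟨v, hv⟩
    obtain ⟨_, h2⟩ := step r v ((hg.2 r v).1 (h v hv)) hr
    exact h2
  intro u v
  exact (hroot u).symm.trans (hroot v)

theorem threeK : gK.IsThreeConnected := by
  refine ⟨by simp, fun S hS => ?_⟩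
  have key : ∀ S : Finset (Fin 6), S.card ≤ 2 → ∃ r : Fin 6, r ∉ S ∧ ∀ v : Fin 6, v ∉ S →
      (labs ((avoid prK S).map fun e => (((prK e).1 : ℕ), ((prK e).2 : ℕ)))
        (List.range 6)).getD r 0 =
      (labs ((avoid prK S).map fun e => (((prK e).1 : ℕ), ((prK e).2 : ℕ)))
        (List.range 6)).getD v 0 := by
    decide +kernel
  obtain ⟨r, hr, h⟩ := key S hS
  exact induce_connected gK prK (fun _ => rfl) S r hr h

theorem not_threeL : ¬ gL.IsThreeConnected := by
  rintro ⟨_, h⟩
  have hc := (h {0, 3} (by decide)).preconnected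
    ⟨5, by simp only [Set.mem_ofPred_eq]; decide⟩ ⟨1, by simp only [Set.mem_ofPred_eq]; decide⟩
  obtain ⟨p⟩ := hc
  cases p with
  | @cons _ b _ hadj _ =>
    obtain ⟨b, hb⟩ := b
    have hadj' : (gL.spanning Set.univ).Adj 5 b := hadj
    obtain ⟨_, e, _, he⟩ := hadj'
    have hb' : b ∉ ({0, 3} : Finset (Fin 6)) := hb
    have key : ∀ e : Fin 13, ∀ b : Fin 6, b ∉ ({0, 3} : Finset (Fin 6)) →
        ¬ (s((prL e).1, (prL e).2) = s(5, b)) := by
      decide +kernel
    exact key e b hb' he

end Pool.Agent.Helper31.Tutte
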