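import Mathlib

/-!
# Quantitative closed subgroup theorem (abstract form)

`S` is a closed bounded multiplicative submonoid of a finite-dimensional real normed algebra. The
set `{X | ∀ s, exp (s X) ∈ S}` is a linear subspace and every element `g` of `S` satisfies
`‖g - 1 - Y‖ ≤ C ‖g - 1‖²` for some `Y` in it.
-/

open Filter Topology NormedSpace

namespace Pool.Agent.Helper31.Lie

variable {𝔸 : Type*} [NormedRing 𝔸] [NormedAlgebra ℝ 𝔸] [CompleteSpace 𝔸]

lemma exp_second_order : ∃ C : ℝ, 0 ≤ C ∧ ∀ᶠ Y : 𝔸 in 𝓝 0, ‖exp Y - 1 - Y‖ ≤ C * ‖Y‖ ^ 2 := by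
  have h := (exp_hasFPowerSeriesAt_zero (𝕂 := ℝ) (𝔸 := 𝔸)).isBigO_sub_partialSum_pow 2
  obtain ⟨C, hC, h⟩ := h.exists_nonneg
  refine ⟨C, hC, ?_⟩
  have h2 := h.bound
  filter_upwards [h2] with Y hY
  have h3 : (expSeries ℝ 𝔸).partialSum 2 Y = 1 + Y := by
    rw [FormalMultilinearSeries.partialSum]
    simp [Finset.sum_range_succ, expSeries_apply_eq]
  rw [h3, zero_add] at hY
  simpa [sub_sub] using hY

omit [NormedAlgebra ℝ 𝔸] [CompleteSpace 𝔸] in
/-- telescoping -/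
lemma norm_pow_mul_pow_sub_pow_le {u v : 𝔸} {K M : ℝ} (n : ℕ)
    (hu : ∀ j, j ≤ n → ‖u ^ j‖ ≤ K) (hv : ∀ j, j ≤ n → ‖v ^ j‖ ≤ M) :
    ∀ k m, k + m ≤ n → ‖u ^ k * v ^ m - v ^ (k + m)‖ ≤ k * (K * ‖u - v‖ * M) := by
  have hM : 0 ≤ M := (norm_nonneg _).trans (hv 0 (Nat.zero_le _))
  have hK : 0 ≤ K := (norm_nonneg _).trans (hu 0 (Nat.zero_le _))
  intro k
  induction k with
  | zero => intro m _; simp
  | succ k ih =>
    intro m hkm
    have h1 : u ^ (k + 1) * v ^ m - v ^ (k + 1 + m) =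
        u ^ k * (u - v) * v ^ m + (u ^ k * v ^ (m + 1) - v ^ (k + (m + 1))) := by
      have h2 : k + 1 + m = k + (m + 1) := by omega
      rw [h2, pow_succ u k, pow_succ' v m]
      noncomm_ring
    rw [h1]
    have h3 := ih (m + 1) (by omega)
    have h4 : ‖u ^ k * (u - v) * v ^ m‖ ≤ K * ‖u - v‖ * M := by
      refine (norm_mul_le _ _).trans ?_
      refine mul_le_mul ((norm_mul_le _ _).trans ?_) (hv m (by omega)) (norm_nonneg _)
        (by positivity)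
      exact mul_le_mul_of_nonneg_right (hu k (by omega)) (norm_nonneg _)
    calc _ ≤ ‖u ^ k * (u - v) * v ^ m‖ + ‖u ^ k * v ^ (m + 1) - v ^ (k + (m + 1))‖ :=
          norm_add_le _ _
      _ ≤ K * ‖u - v‖ * M + k * (K * ‖u - v‖ * M) := add_le_add h4 h3
      _ = _ := by push_cast; ring

omit [NormedAlgebra ℝ 𝔸] [CompleteSpace 𝔸] in
lemma norm_pow_sub_pow_le {u v : 𝔸} {K M : ℝ} (n : ℕ)
    (hu : ∀ j, j ≤ n → ‖u ^ j‖ ≤ K) (hv : ∀ j, j ≤ n → ‖v ^ j‖ ≤ M) :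
    ‖u ^ n - v ^ n‖ ≤ n * (K * ‖u - v‖ * M) := by
  simpa using norm_pow_mul_pow_sub_pow_le n hu hv n 0 le_rfl

lemma continuous_exp' : Continuous (exp : 𝔸 → 𝔸) := by
  let _ : NormedAlgebra ℚ 𝔸 := .restrictScalars ℚ ℝ 𝔸
  exact exp_continuous

lemma exp_add_smul (a b : ℝ) (Z : 𝔸) : exp ((a + b) • Z) = exp (a • Z) * exp (b • Z) := by
  let _ : NormedAlgebra ℚ 𝔸 := .restrictScalars ℚ ℝ 𝔸
  rw [add_smul]
  exact exp_add_of_commute (((Commute.refl Z).smul_left a).smul_right b)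

lemma exp_smul_pow (a : ℝ) (Z : 𝔸) (k : ℕ) : exp (a • Z) ^ k = exp ((k * a) • Z) := by
  let _ : NormedAlgebra ℚ 𝔸 := .restrictScalars ℚ ℝ 𝔸
  rw [← exp_nsmul, ← Nat.cast_smul_eq_nsmul ℝ, smul_smul]

/-- `c (exp (Z / c) - 1) → Z`. -/
lemma tendsto_smul_exp_sub_one {c : ℕ → ℝ} (hc : Tendsto c atTop atTop) (Z : 𝔸) :
    Tendsto (fun n => c n • (exp ((c n)⁻¹ • Z) - 1)) atTop (𝓝 Z) := by
  obtain ⟨C, hC, h⟩ := exp_second_order (𝔸 := 𝔸)
  have h0 : Tendsto (fun n => (c n)⁻¹ • Z) atTop (𝓝 0) := by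
    have : Tendsto (fun n => (c n)⁻¹) atTop (𝓝 0) := tendsto_inv_atTop_zero.comp hc
    simpa using this.smul_const Z
  have h1 := h0.eventually h
  rw [tendsto_iff_norm_sub_tendsto_zero]
  have h2 : Tendsto (fun n => C * ‖Z‖ ^ 2 * (c n)⁻¹) atTop (𝓝 0) := by
    have : Tendsto (fun n => (c n)⁻¹) atTop (𝓝 0) := tendsto_inv_atTop_zero.comp hc
    simpa using this.const_mul (C * ‖Z‖ ^ 2)
  refine squeeze_zero' (Eventually.of_forall fun _ => norm_nonneg _) ?_ h2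
  filter_upwards [h1, hc.eventually_gt_atTop 0] with n hn hn0
  have h3 : c n • (exp ((c n)⁻¹ • Z) - 1) - Z = c n • (exp ((c n)⁻¹ • Z) - 1 - (c n)⁻¹ • Z) := by
    rw [smul_sub _ _ ((c n)⁻¹ • Z), smul_smul, mul_inv_cancel₀ hn0.ne', one_smul]
  rw [h3, norm_smul, Real.norm_of_nonneg hn0.le]
  calc c n * ‖exp ((c n)⁻¹ • Z) - 1 - (c n)⁻¹ • Z‖ ≤ c n * (C * ‖(c n)⁻¹ • Z‖ ^ 2) :=
        mul_le_mul_of_nonneg_left hn hn0.le
    _ = C * ‖Z‖ ^ 2 * (c n)⁻¹ := by
        rw [norm_smul, Real.norm_of_nonneg (inv_nonneg.mpr hn0.le)]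
        field_simp

/-- Powers of elements converging to one with a given direction. -/
lemma tendsto_pow_exp {K : ℝ} {u : ℕ → 𝔸} {c : ℕ → ℝ} {Z : 𝔸} (hK : ∀ n j, ‖u n ^ j‖ ≤ K)
    (hc : Tendsto c atTop atTop) (h : Tendsto (fun n => c n • (u n - 1)) atTop (𝓝 Z)) {s : ℝ}
    (hs : 0 ≤ s) : Tendsto (fun n => u n ^ ⌊s * c n⌋₊) atTop (𝓝 (exp (s • Z))) := by
  -- a bound for the exponentials
  obtain ⟨M, hM⟩ : ∃ M : ℝ, ∀ t ∈ Set.Icc (0 : ℝ) s, ‖exp (t • Z)‖ ≤ M := by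
    have hcont : ContinuousOn (fun t : ℝ => exp (t • Z)) (Set.Icc 0 s) := by
      have : Continuous (fun t : ℝ => exp (t • Z)) :=
        continuous_exp'.comp (by fun_prop)
      exact this.continuousOn
    exact isCompact_Icc.exists_bound_of_continuousOn hcont
  have hK0 : 0 ≤ K := (norm_nonneg _).trans (hK 0 0)
  have hM0 : 0 ≤ M := (norm_nonneg _).trans (hM 0 ⟨le_rfl, hs⟩)
  set v : ℕ → 𝔸 := fun n => exp ((c n)⁻¹ • Z) with hv
  have hinv : Tendsto (fun n => (c n)⁻¹) atTop (𝓝 0) := tendsto_inv_atTop_zero.comp hc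
  -- the fractions
  have hfl : Tendsto (fun n => (⌊s * c n⌋₊ : ℝ) * (c n)⁻¹) atTop (𝓝 s) := by
    have hl : Tendsto (fun n => s - (c n)⁻¹) atTop (𝓝 s) := by simpa using hinv.const_sub s
    refine tendsto_of_tendsto_of_tendsto_of_le_of_le' hl tendsto_const_nhds ?_ ?_
    · filter_upwards [hc.eventually_gt_atTop 0] with n hn0
      have h1 := Nat.lt_floor_add_one (s * c n)
      have h2 : s - (c n)⁻¹ = (s * c n - 1) * (c n)⁻¹ := by field_simp
      rw [h2]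
      exact mul_le_mul_of_nonneg_right (by linarith) (inv_nonneg.mpr hn0.le)
    · filter_upwards [hc.eventually_gt_atTop 0] with n hn0
      have h1 := Nat.floor_le (a := s * c n) (by positivity)
      calc (⌊s * c n⌋₊ : ℝ) * (c n)⁻¹ ≤ (s * c n) * (c n)⁻¹ :=
            mul_le_mul_of_nonneg_right h1 (inv_nonneg.mpr hn0.le)
        _ = s := by field_simp
  have hvk : Tendsto (fun n => v n ^ ⌊s * c n⌋₊) atTop (𝓝 (exp (s • Z))) := by
    have h1 : (fun n => v n ^ ⌊s * c n⌋₊) =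
        fun n => exp (((⌊s * c n⌋₊ : ℝ) * (c n)⁻¹) • Z) := by
      funext n
      exact exp_smul_pow _ _ _
    rw [h1]
    exact (continuous_exp'.tendsto _).comp (hfl.smul_const Z)
  have hdiff : Tendsto (fun n => u n ^ ⌊s * c n⌋₊ - v n ^ ⌊s * c n⌋₊) atTop (𝓝 0) := by
    have h1 : Tendsto (fun n => ‖c n • (u n - v n)‖) atTop (𝓝 0) := by
      have h2 := h.sub (tendsto_smul_exp_sub_one hc Z)
      rw [sub_self] at h2
      have h3 := h2.norm
      rw [norm_zero] at h3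
      refine h3.congr fun n => ?_
      rw [← smul_sub]
      congr 2
      simp [hv]
    have h4 : Tendsto (fun n => s * K * M * ‖c n • (u n - v n)‖) atTop (𝓝 0) := by
      simpa using h1.const_mul (s * K * M)
    refine squeeze_zero_norm' ?_ h4
    filter_upwards [hc.eventually_gt_atTop 0] with n hn0
    refine (norm_pow_sub_pow_le (K := K) (M := M) _ (fun j _ => hK n j) fun j hj => ?_).trans ?_
    · rw [hv]
      simp only
      rw [exp_smul_pow]
      refine hM _ ⟨by positivity, ?_⟩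
      have h5 : (j : ℝ) ≤ s * c n := (Nat.cast_le.mpr hj).trans (Nat.floor_le (by positivity))
      calc (j : ℝ) * (c n)⁻¹ ≤ (s * c n) * (c n)⁻¹ :=
            mul_le_mul_of_nonneg_right h5 (inv_nonneg.mpr hn0.le)
        _ = s := by field_simp
    · rw [norm_smul, Real.norm_of_nonneg hn0.le]
      have h5 : (⌊s * c n⌋₊ : ℝ) ≤ s * c n := Nat.floor_le (by positivity)
      calc (⌊s * c n⌋₊ : ℝ) * (K * ‖u n - v n‖ * M) ≤ s * c n * (K * ‖u n - v n‖ * M) :=
            mul_le_mul_of_nonneg_right h5 (by positivity)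
        _ = _ := by ring
  have := hdiff.add hvk
  simpa using this

/-- The data of a closed bounded matrix group. -/
structure IsBddGroup (S : Set 𝔸) (K : ℝ) : Prop where
  closed : IsClosed S
  one_mem : (1 : 𝔸) ∈ S
  mul_mem : ∀ {a b : 𝔸}, a ∈ S → b ∈ S → a * b ∈ S
  inv_mem : ∀ {a : 𝔸}, a ∈ S → ∃ b ∈ S, a * b = 1
  bdd : ∀ a ∈ S, ‖a‖ ≤ K

variable {S : Set 𝔸} {K : ℝ}

omit [NormedAlgebra ℝ 𝔸] [CompleteSpace 𝔸] in
lemma IsBddGroup.pow_mem (hS : IsBddGroup S K) {a : 𝔸} (ha : a ∈ S) (n : ℕ) : a ^ n ∈ S := by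
  induction n with
  | zero => simpa using hS.one_mem
  | succ n ih => rw [pow_succ]; exact hS.mul_mem ih ha

lemma IsBddGroup.exp_neg_mem (hS : IsBddGroup S K) {a : 𝔸} (ha : exp a ∈ S) : exp (-a) ∈ S := by
  obtain ⟨b, hb, hab⟩ := hS.inv_mem ha
  have h1 : exp (-a) * exp a = 1 := by
    have := exp_add_smul (-1) 1 a
    simpa using this.symm
  have h2 : exp (-a) = b := by
    calc exp (-a) = exp (-a) * (exp a * b) := by rw [hab, mul_one]
      _ = b := by rw [← mul_assoc, h1, one_mul]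
  rw [h2]; exact hb

/-- Step 1. -/
lemma IsBddGroup.exp_mem_of_tendsto (hS : IsBddGroup S K) {u : ℕ → 𝔸} (hu : ∀ n, u n ∈ S)
    {c : ℕ → ℝ} (hc : Tendsto c atTop atTop) {Z : 𝔸}
    (h : Tendsto (fun n => c n • (u n - 1)) atTop (𝓝 Z)) (s : ℝ) : exp (s • Z) ∈ S := by
  have key : ∀ s : ℝ, 0 ≤ s → exp (s • Z) ∈ S := fun s hs =>
    hS.closed.mem_of_tendsto
      (tendsto_pow_exp (K := K) (fun n j => hS.bdd _ (hS.pow_mem (hu n) j)) hc h hs)
      (Eventually.of_forall fun n => hS.pow_mem (hu n) _)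
  rcases le_total 0 s with hs | hs
  · exact key s hs
  · have := hS.exp_neg_mem (key (-s) (by linarith))
    rwa [← neg_smul, neg_neg] at this

/-- The Lie algebra of `S`. -/
def IsBddGroup.lie (hS : IsBddGroup S K) : Submodule ℝ 𝔸 where
  carrier := {X | ∀ s : ℝ, exp (s • X) ∈ S}
  zero_mem' := fun s => by simpa using hS.one_mem
  smul_mem' := fun a X hX s => by
    have := hX (s * a)
    rwa [mul_smul] at this
  add_mem' := fun {X Y} hX hY s => by
    have hc : Tendsto (fun n : ℕ => (n : ℝ)) atTop atTop := tendsto_natCast_atTop_atTop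
    refine hS.exp_mem_of_tendsto (u := fun n => exp (((n : ℝ))⁻¹ • X) * exp (((n : ℝ))⁻¹ • Y))
      (fun n => hS.mul_mem (hX _) (hY _)) hc ?_ s
    have h1 := tendsto_smul_exp_sub_one hc X
    have h2 := tendsto_smul_exp_sub_one hc Y
    have h3 : Tendsto (fun n : ℕ => exp (((n : ℝ))⁻¹ • X)) atTop (𝓝 1) := by
      have h4 : Tendsto (fun n : ℕ => ((n : ℝ))⁻¹ • X) atTop (𝓝 0) := by
        have := tendsto_inv_atTop_zero.comp hc
        simpa using this.smul_const X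
      have h5 := (continuous_exp'.tendsto (0 : 𝔸)).comp h4
      rw [exp_zero] at h5
      exact h5
    have h5 := h1.add (h3.mul h2)
    rw [one_mul] at h5
    refine h5.congr fun n => ?_
    rw [mul_smul_comm, ← smul_add]
    congr 1
    noncomm_ring

lemma IsBddGroup.mem_lie (hS : IsBddGroup S K) {X : 𝔸} :
    X ∈ hS.lie ↔ ∀ s : ℝ, exp (s • X) ∈ S := Iff.rfl

/-- Quantitative closed subgroup theorem. -/
theorem IsBddGroup.approx [FiniteDimensional ℝ 𝔸] (hS : IsBddGroup S K) :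
    ∃ C : ℝ, 0 ≤ C ∧ ∀ g ∈ S, ∃ Y ∈ hS.lie, ‖g - 1 - Y‖ ≤ C * ‖g - 1‖ ^ 2 := by
  classical
  -- a continuous projection onto the Lie algebra
  obtain ⟨P, hP⟩ := LinearMap.exists_leftInverse_of_injective hS.lie.subtype
    (LinearMap.ker_eq_bot.mpr hS.lie.injective_subtype)
  set Q : 𝔸 →L[ℝ] 𝔸 := LinearMap.toContinuousLinearMap (hS.lie.subtype ∘ₗ P) with hQ
  have hQm : ∀ X, Q X ∈ hS.lie := fun X => (P X).2
  have hQid : ∀ X ∈ hS.lie, Q X = X := fun X hX => by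
    have := LinearMap.congr_fun hP ⟨X, hX⟩
    simp only [LinearMap.comp_apply, LinearMap.id_apply, Submodule.subtype_apply] at this
    show ((P X : hS.lie) : 𝔸) = X
    rw [this]
  obtain ⟨C₀, hC₀, hexp⟩ := exp_second_order (𝔸 := 𝔸)
  by_contra hcon
  push Not at hcon
  choose! g hgS hg using fun n : ℕ => hcon n (Nat.cast_nonneg n)
  set d : ℕ → ℝ := fun n => ‖g n - 1‖ with hd
  set Y : ℕ → 𝔸 := fun n => Q (g n - 1) with hY
  set Z : ℕ → 𝔸 := fun n => g n - 1 - Y n with hZ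
  have hZd : ∀ n, n * d n ^ 2 < ‖Z n‖ := fun n => hg n (Y n) (hQm _)
  have hK0 : 0 ≤ K := (norm_nonneg _).trans (hS.bdd _ hS.one_mem)
  set A : ℝ := 1 + ‖Q‖ with hA
  have hA0 : 0 < A := by positivity
  have hYd : ∀ n, ‖Y n‖ ≤ ‖Q‖ * d n := fun n => Q.le_opNorm _
  have hZA : ∀ n, ‖Z n‖ ≤ A * d n := fun n => by
    calc ‖Z n‖ ≤ ‖g n - 1‖ + ‖Y n‖ := norm_sub_le _ _
      _ ≤ d n + ‖Q‖ * d n := add_le_add le_rfl (hYd n)
      _ = A * d n := by rw [hA]; ring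
  have hd0 : ∀ n, 0 < d n := fun n => by
    by_contra h
    have h1 : d n = 0 := le_antisymm (not_lt.mp h) (norm_nonneg _)
    have h2 := hZd n
    have h3 := hZA n
    rw [h1] at h2 h3
    simp only [ne_eq, OfNat.ofNat_ne_zero, not_false_eq_true, zero_pow, mul_zero] at h2 h3
    linarith
  have hZ0 : ∀ n, 0 < ‖Z n‖ := fun n => lt_of_le_of_lt (by positivity) (hZd n)
  have hdn : ∀ n : ℕ, n * d n ≤ A := fun n => by
    have h1 : (n * d n) * d n < A * d n := by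
      calc (n * d n) * d n = n * d n ^ 2 := by ring
        _ < ‖Z n‖ := hZd n
        _ ≤ _ := hZA n
    exact (lt_of_mul_lt_mul_right h1 (hd0 n).le).le
  have hdlim : Tendsto d atTop (𝓝 0) := by
    have h1 : Tendsto (fun n : ℕ => A * (n : ℝ)⁻¹) atTop (𝓝 0) := by
      have := tendsto_inv_atTop_zero.comp (tendsto_natCast_atTop_atTop (R := ℝ))
      simpa using this.const_mul A
    refine squeeze_zero' (Eventually.of_forall fun n => (hd0 n).le) ?_ h1
    filter_upwards [eventually_gt_atTop 0] with n hn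
    have hn' : (0 : ℝ) < n := Nat.cast_pos.mpr hn
    rw [← div_eq_mul_inv, le_div_iff₀ hn', mul_comm]
    exact hdn n
  have hYlim : Tendsto Y atTop (𝓝 0) := by
    refine squeeze_zero_norm hYd ?_
    simpa using hdlim.const_mul ‖Q‖
  have hZlim : Tendsto (fun n => ‖Z n‖) atTop (𝓝 0) := by
    refine squeeze_zero (fun n => norm_nonneg _) hZA ?_
    simpa using hdlim.const_mul A
  -- the corrected group elements
  set h : ℕ → 𝔸 := fun n => exp (-(Y n)) * g n with hh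
  have hhS : ∀ n, h n ∈ S := fun n => by
    refine hS.mul_mem ?_ (hgS n)
    have := (hS.mem_lie.mp (hQm (g n - 1))) (-1)
    rwa [neg_smul, one_smul] at this
  set B : ℝ := ‖Q‖ + C₀ * ‖Q‖ ^ 2 * K with hB
  have hB0 : 0 ≤ B := by positivity
  have hest : ∀ᶠ n in atTop, ‖h n - 1 - Z n‖ ≤ B * d n ^ 2 := by
    have hYneg : Tendsto (fun n => -(Y n)) atTop (𝓝 0) := by simpa using hYlim.neg
    filter_upwards [hYneg.eventually hexp] with n hn
    have h1 : h n - 1 - Z n = (exp (-(Y n)) - 1 - -(Y n)) * g n - Y n * (g n - 1) := by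
      simp only [hh, hZ]
      noncomm_ring
    rw [h1]
    have h2 : ‖(exp (-(Y n)) - 1 - -(Y n)) * g n‖ ≤ C₀ * (‖Q‖ * d n) ^ 2 * K := by
      refine (norm_mul_le _ _).trans ?_
      refine mul_le_mul (hn.trans ?_) (hS.bdd _ (hgS n)) (norm_nonneg _) (by positivity)
      rw [norm_neg]
      exact mul_le_mul_of_nonneg_left (pow_le_pow_left₀ (norm_nonneg _) (hYd n) 2) hC₀
    have h3 : ‖Y n * (g n - 1)‖ ≤ ‖Q‖ * d n * d n :=
      (norm_mul_le _ _).trans (mul_le_mul_of_nonneg_right (hYd n) (norm_nonneg _))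
    calc _ ≤ ‖(exp (-(Y n)) - 1 - -(Y n)) * g n‖ + ‖Y n * (g n - 1)‖ := norm_sub_le _ _
      _ ≤ C₀ * (‖Q‖ * d n) ^ 2 * K + ‖Q‖ * d n * d n := add_le_add h2 h3
      _ = B * d n ^ 2 := by rw [hB]; ring
  -- the directions
  set c : ℕ → ℝ := fun n => ‖Z n‖⁻¹ with hc
  have hc0 : ∀ n, 0 < c n := fun n => inv_pos.mpr (hZ0 n)
  have hclim : Tendsto c atTop atTop := by
    refine tendsto_inv_nhdsGT_zero.comp ?_
    exact tendsto_nhdsWithin_iff.mpr ⟨hZlim, Eventually.of_forall fun n => hZ0 n⟩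
  have hsph : ∀ n, c n • Z n ∈ Metric.sphere (0 : 𝔸) 1 := fun n => by
    rw [mem_sphere_zero_iff_norm, norm_smul, Real.norm_of_nonneg (hc0 n).le]
    exact inv_mul_cancel₀ (hZ0 n).ne'
  have : ProperSpace 𝔸 := FiniteDimensional.proper ℝ 𝔸
  obtain ⟨W, hW, φ, hφ, hlim⟩ := (isCompact_sphere (0 : 𝔸) 1).tendsto_subseq hsph
  have hdiff : Tendsto (fun n => c n • (h n - 1) - c n • Z n) atTop (𝓝 0) := by
    have h1 : Tendsto (fun n : ℕ => B * (n : ℝ)⁻¹) atTop (𝓝 0) := by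
      have := tendsto_inv_atTop_zero.comp (tendsto_natCast_atTop_atTop (R := ℝ))
      simpa using this.const_mul B
    refine squeeze_zero_norm' ?_ h1
    filter_upwards [hest, eventually_gt_atTop 0] with n hn hn0
    have hn' : (0 : ℝ) < n := Nat.cast_pos.mpr hn0
    rw [← smul_sub, norm_smul, Real.norm_of_nonneg (hc0 n).le]
    have h2 : d n ^ 2 ≤ ‖Z n‖ * (n : ℝ)⁻¹ := by
      rw [← div_eq_mul_inv, le_div_iff₀ hn', mul_comm]
      exact (hZd n).le
    calc c n * ‖h n - 1 - Z n‖ ≤ c n * (B * (‖Z n‖ * (n : ℝ)⁻¹)) :=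
          mul_le_mul_of_nonneg_left (hn.trans (mul_le_mul_of_nonneg_left h2 hB0)) (hc0 n).le
      _ = (‖Z n‖⁻¹ * ‖Z n‖) * (B * (n : ℝ)⁻¹) := by rw [hc]; ring
      _ = B * (n : ℝ)⁻¹ := by rw [inv_mul_cancel₀ (hZ0 n).ne', one_mul]
  have hWlie : W ∈ hS.lie := by
    rw [hS.mem_lie]
    refine hS.exp_mem_of_tendsto (u := h ∘ φ) (fun n => hhS _) (hclim.comp hφ.tendsto_atTop) ?_
    have h1 := (hdiff.comp hφ.tendsto_atTop).add hlim
    rw [zero_add] at h1
    refine h1.congr fun n => ?_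
    simp
  have hQW : Q W = 0 := by
    have h1 : Tendsto (fun n => Q (c (φ n) • Z (φ n))) atTop (𝓝 (Q W)) :=
      (Q.continuous.tendsto W).comp hlim
    have h2 : ∀ n, Q (c (φ n) • Z (φ n)) = 0 := fun n => by
      rw [map_smul]
      simp only [hZ, hY]
      rw [map_sub, hQid _ (hQm _), sub_self, smul_zero]
    simp only [h2] at h1
    exact tendsto_nhds_unique h1 tendsto_const_nhds |>.symm ▸ rfl
  rw [hQid W hWlie] at hQW
  rw [mem_sphere_zero_iff_norm, hQW, norm_zero] at hW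
  exact zero_ne_one hW

end Pool.Agent.Helper31.Lie
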