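import Pool.Agent.Helper82.YM.Basic
import Pool.Agent.Helper31.YMLieAbs

/-!
# Quantitative closed subgroup theorem for a compact subgroup of `U(N)`
-/

open MeasureTheory Filter Topology
open scoped Matrix.Norms.Frobenius ComplexConjugate

noncomputable section

namespace Pool.Agent.Helper82.YM

open Pool.Agent.LGT (tr haar)

variable {N : ℕ}

/-- A compact subgroup of `U(N)`, as a set of matrices. -/
lemma isBddGroup_range (G : Subgroup (Matrix.unitaryGroup (Fin N) ℂ)) [CompactSpace G] :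
    Pool.Agent.Helper31.Lie.IsBddGroup (Set.range (mat : G → Matrix (Fin N) (Fin N) ℂ))
      ‖(1 : Matrix (Fin N) (Fin N) ℂ)‖ where
  closed := (isCompact_range continuous_mat).isClosed
  one_mem := ⟨1, mat_one⟩
  mul_mem := by
    rintro _ _ ⟨g, rfl⟩ ⟨h, rfl⟩
    exact ⟨g * h, mat_mul g h⟩
  inv_mem := by
    rintro _ ⟨g, rfl⟩
    exact ⟨mat g⁻¹, ⟨g⁻¹, rfl⟩, by rw [← mat_mul, mul_inv_cancel, mat_one]⟩
  bdd := by
    rintro _ ⟨g, rfl⟩
    have := norm_mat_mul g 1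
    rw [mul_one] at this
    exact this.le

/-- The closed subgroup theorem, quantitative form: near `1` a closed subgroup `G` of `U(N)` is
`O(dist²)`-close to its Lie algebra `𝔤 = {X | ∀ s, exp (sX) ∈ G}`. -/
theorem lie_approx (G : Subgroup (Matrix.unitaryGroup (Fin N) ℂ)) [CompactSpace G] :
    ∃ (𝔤 : Submodule ℝ (Matrix (Fin N) (Fin N) ℂ)) (C : ℝ), 0 ≤ C ∧
      (∀ X ∈ 𝔤, ∃ γ : ℝ → G, ∀ s, mat (γ s) = NormedSpace.exp (s • X)) ∧
      ∀ g : G, ∃ Y ∈ 𝔤, ‖mat g - 1 - Y‖ ≤ C * dev g ^ 2 := by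
  have hS := isBddGroup_range G
  obtain ⟨C, hC, h⟩ := hS.approx
  refine ⟨hS.lie, C, hC, fun X hX => ?_, fun g => h (mat g) ⟨g, rfl⟩⟩
  choose γ hγ using hX
  exact ⟨γ, hγ⟩

end Pool.Agent.Helper82.YM
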